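import Mathlib
set_option autoImplicit false
open Finset

namespace Pool.Agent.Helper998.Kotz

section alg
variable {K : Type} [Field K] [Fintype K] [DecidableEq K]
variable {V E : Type} [Fintype V] [DecidableEq V] [Fintype E] [DecidableEq E]

/-- boundary of f at v (edge e has the two darts (e,false), (e,true)) -/
def bd (en : E × Bool → V) (f : E → K) (v : V) : K :=
  ∑ d : E × Bool, if en d = v then f d.1 else 0

/-- weight -/
def wt (en : E × Bool → V) (c : E × Bool → K) (s : V → K) (f : E → K) : K :=
  ∏ e, (f e * ∏ i : Bool, (f e + c (e, i) * s (en (e, i))))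

/-- weighted number of flows -/
def Zs (en : E × Bool → V) (c : E × Bool → K) (s : V → K) : K :=
  ∑ f : E → K, if (∀ v, bd en f v = 0) then wt en c s f else 0

/-- joining the dart d (at w) to the other end of the edge of d1 (the edge of d1 is deleted) -/
def jn {T : Type} (g : E × Bool → T) (d1 d : E × Bool) : {x : E // x ≠ d1.1} × Bool → T :=
  fun y => if ((y.1 : E), y.2) = d then g (d1.1, !d1.2) else g (y.1, y.2)



theorem parity_count (hK : Fintype.card K = 4) [CharP K 2] {D : Type} [DecidableEq D] (S : Finset D) (f : D → K)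
    (h0 : ∀ d ∈ S, f d ≠ 0) (hs : ∑ d ∈ S, f d = 0) (he : Even S.card) (g : K) (hg : g ≠ 0) :
    Even (S.filter fun d => f d = g).card := by
  have hphi : ∀ d ∈ S, (f d / g) ^ 2 + f d / g = if f d = g then 0 else 1 := by
    intro d hd
    obtain ⟨b, hb⟩ : ∃ b, b = f d / g := ⟨_, rfl⟩
    have hb0 : b ≠ 0 := by rw [hb]; exact div_ne_zero (h0 d hd) hg
    have hb4 : b ^ 4 = b := by rw [← hK]; exact FiniteField.pow_card b
    rw [← hb]
    split_ifs with h
    · rw [h, div_self hg] at hb
      rw [hb]
      have := CharTwo.two_eq_zero (R := K)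
      rw [one_pow, one_add_one_eq_two, this]
    · have hb1 : b ≠ 1 := by
        intro h1
        apply h
        rw [h1, eq_comm, div_eq_one_iff_eq hg] at hb
        exact hb
      have h5 : b * (b - 1) * (b ^ 2 + b + 1) = 0 := by
        linear_combination hb4
      rcases mul_eq_zero.1 h5 with h6 | h6
      · rcases mul_eq_zero.1 h6 with h7 | h7
        · exact absurd h7 hb0
        · exact absurd (sub_eq_zero.1 h7) hb1
      · have h2 := CharTwo.two_eq_zero (R := K)
        linear_combination h6 - h2
  have h1 : ∑ d ∈ S, ((f d / g) ^ 2 + f d / g) = 0 := by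
    rw [Finset.sum_add_distrib, ← CharTwo.sum_sq, ← Finset.sum_div, hs]
    simp
  rw [Finset.sum_congr rfl hphi] at h1
  have h2 : (((S.filter fun d => ¬ f d = g).card : ℕ) : K) = 0 := by
    rw [← h1, Finset.card_filter]
    push_cast
    refine Finset.sum_congr rfl fun d _ => ?_
    split_ifs <;> simp_all
  rw [CharP.cast_eq_zero_iff K 2] at h2
  have h3 := Finset.card_filter_add_card_filter_not (s := S) (fun d => f d = g)
  have h4 : Even (S.filter fun d => ¬ f d = g).card := even_iff_two_dvd.2 h2
  have h5 : Even ((S.filter fun d => f d = g).card + (S.filter fun d => ¬ f d = g).card) := by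
    rw [h3]; exact he
  exact (Nat.even_add.1 h5).2 h4




theorem split_pow4 (hK : Fintype.card K = 4) (g : K) : g ^ 4 = g := by
  have := FiniteField.pow_card g
  rwa [hK] at this

theorem split_pow3 (hK : Fintype.card K = 4) [CharP K 2] : ∑ g : K, g ^ 3 = 1 := by
  have h1 : ∀ g : K, g ^ 3 = if g = 0 then 0 else 1 := by
    intro g
    split_ifs with h
    · rw [h]; simp
    · have := FiniteField.pow_card_sub_one_eq_one g h
      rwa [hK] at this
  simp_rw [h1]
  rw [← Finset.sum_erase_add _ _ (Finset.mem_univ (0 : K))]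
  rw [if_pos rfl, add_zero]
  have h2 : ∑ x ∈ (univ : Finset K).erase 0, (if x = 0 then (0:K) else 1) =
      ∑ x ∈ (univ : Finset K).erase 0, (1:K) := by
    refine Finset.sum_congr rfl fun x hx => ?_
    rw [if_neg (Finset.ne_of_mem_erase hx)]
  rw [h2, Finset.sum_const, Finset.card_erase_of_mem (Finset.mem_univ _), Finset.card_univ, hK]
  have h3 : ((4 - 1 : ℕ)) • (1 : K) = 1 + (1 + 1) := by
    simp only [nsmul_eq_mul]
    norm_num
  rw [h3, CharTwo.add_self_eq_zero, add_zero]

/-- extension by the value `g` at `e1` -/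
def split_ext (e1 : E) (g : K) (h : {x : E // x ≠ e1} → K) : E → K :=
  fun e => if hh : e = e1 then g else h ⟨e, hh⟩

omit [Field K] [Fintype K] [DecidableEq K] [Fintype E] in
theorem split_ext_self (e1 : E) (g : K) (h : {x : E // x ≠ e1} → K) :
    split_ext e1 g h e1 = g := by simp [split_ext]

omit [Field K] [Fintype K] [DecidableEq K] [Fintype E] in
theorem split_ext_ne (e1 : E) (g : K) (h : {x : E // x ≠ e1} → K) (y : {x : E // x ≠ e1}) :
    split_ext e1 g h y = h y := by
  have := y.2
  simp [split_ext, this]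

theorem split_sum (e1 : E) (F : (E → K) → K) :
    ∑ f, F f = ∑ g : K, ∑ h : {x : E // x ≠ e1} → K, F (split_ext e1 g h) := by
  rw [← (Equiv.funSplitAt e1 K).symm.sum_comp, Fintype.sum_prod_type]
  refine Finset.sum_congr rfl fun g _ => Finset.sum_congr rfl fun h _ => ?_
  congr 1
  funext e
  by_cases he : e = e1
  · subst he
    simp [Equiv.funSplitAt, Equiv.piSplitAt, split_ext]
  · simp [Equiv.funSplitAt, Equiv.piSplitAt, split_ext, he]

theorem split_bd (en : E × Bool → V) (e1 : E) (i1 : Bool) (g : K)
    (h : {x : E // x ≠ e1} → K) (v : V) :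
    bd en (split_ext e1 g h) v = ((if en (e1, i1) = v then g else 0) +
      (if en (e1, !i1) = v then g else 0)) +
      ∑ y : {x : E // x ≠ e1} × Bool, if en (y.1, y.2) = v then h y.1 else 0 := by
  rw [bd, Fintype.sum_prod_type, Fintype.sum_eq_add_sum_subtype_ne _ e1, Fintype.sum_prod_type]
  congr 1
  · rw [Fintype.sum_bool]
    cases i1 <;> simp [split_ext_self, add_comm]
  · refine Finset.sum_congr rfl fun y _ => Finset.sum_congr rfl fun i _ => ?_
    simp only [split_ext_ne]

theorem split_wt (en : E × Bool → V) (c : E × Bool → K) (s : V → K) (e1 : E) (i1 : Bool) (g : K)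
    (h : {x : E // x ≠ e1} → K) :
    wt en c s (split_ext e1 g h) = (g * ((g + c (e1, i1) * s (en (e1, i1))) *
      (g + c (e1, !i1) * s (en (e1, !i1))))) *
      ∏ y : {x : E // x ≠ e1}, (h y * ∏ i : Bool, (h y + c (y, i) * s (en (y, i)))) := by
  rw [wt, Fintype.prod_eq_mul_prod_subtype_ne _ e1]
  congr 1
  · rw [Fintype.prod_bool]
    cases i1 <;> simp [split_ext_self, mul_comm, mul_left_comm]
  · refine Finset.prod_congr rfl fun y _ => ?_
    simp only [split_ext_ne]

theorem split_key (hK : Fintype.card K = 4) [CharP K 2] (en : E × Bool → V) (c : E × Bool → K)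
    (s : V → K) (w : V) (hw : s w = 0) (d1 d : E × Bool) (hd1 : en d1 = w) (hd : en d = w)
    (hne : d ≠ d1) :
    Zs (jn en d1 d) (jn c d1 d) s = ∑ f : E → K, if f d.1 = f d1.1 then
      (if (∀ v, bd en f v = 0) then wt en c s f else 0) else 0 := by
  obtain ⟨e1, i1⟩ := d1
  obtain ⟨a, i⟩ := d
  rw [split_sum e1]
  by_cases ha : a = e1
  · subst ha
    have hi : i = !i1 := by
      cases i <;> cases i1 <;> simp_all
    subst hi
    have hj : ∀ {T : Type} (q : E × Bool → T) (y : {x : E // x ≠ a} × Bool),
        jn q (a, i1) (a, !i1) y = q (y.1, y.2) := by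
      intro T q y
      simp only [jn]
      rw [if_neg]
      intro h0
      exact y.1.2 (congrArg Prod.fst h0)
    have hb : ∀ (g : K) (h : {x : E // x ≠ a} → K) (v : V),
        bd en (split_ext a g h) v = bd (jn en (a, i1) (a, !i1)) h v := by
      intro g h v
      rw [split_bd en a i1, hd1, hd, CharTwo.add_self_eq_zero, zero_add, bd]
      simp only [hj]
    have hwt : ∀ (g : K) (h : {x : E // x ≠ a} → K),
        wt en c s (split_ext a g h) =
          g ^ 3 * wt (jn en (a, i1) (a, !i1)) (jn c (a, i1) (a, !i1)) s h := by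
      intro g h
      rw [split_wt en c s a i1, hd1, hd, hw, wt]
      simp only [hj]
      ring
    simp only [if_true, hb, hwt]
    rw [Finset.sum_comm]
    rw [Zs]
    refine Finset.sum_congr rfl fun h _ => ?_
    split_ifs with h0
    · rw [← Finset.sum_mul, split_pow3 hK, one_mul]
    · simp
  · have key : ∀ h : {x : E // x ≠ e1} → K, ∀ v,
        bd en (split_ext e1 (h ⟨a, ha⟩) h) v = bd (jn en (e1, i1) (a, i)) h v := by
      intro h v
      rw [split_bd en e1 i1, hd1, bd]
      have h1 : ∀ y : {x : E // x ≠ e1} × Bool,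
          (if jn en (e1, i1) (a, i) y = v then h y.1 else 0) =
          (if en (y.1, y.2) = v then h y.1 else 0) +
          (if y = (⟨a, ha⟩, i) then ((if en (e1, !i1) = v then h ⟨a, ha⟩ else 0) -
            (if w = v then h ⟨a, ha⟩ else 0)) else 0) := by
        rintro ⟨⟨b, hb⟩, j⟩
        by_cases hbj : (b, j) = (a, i)
        · simp only [Prod.mk.injEq] at hbj
          obtain ⟨rfl, rfl⟩ := hbj
          simp only [jn, if_true, hd]
          ring
        · have h2 : ¬ ((⟨b, hb⟩, j) : {x : E // x ≠ e1} × Bool) = (⟨a, ha⟩, i) := by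
            intro h3
            apply hbj
            simp only [Prod.mk.injEq, Subtype.mk.injEq] at h3
            rw [h3.1, h3.2]
          rw [if_neg h2, add_zero]
          simp only [jn, if_neg hbj]
      simp only [h1]
      rw [Finset.sum_add_distrib, Finset.sum_ite_eq' univ, if_pos (Finset.mem_univ _)]
      rw [CharTwo.sub_eq_add]
      ring
    have hwt : ∀ h : {x : E // x ≠ e1} → K,
        wt en c s (split_ext e1 (h ⟨a, ha⟩) h) =
          wt (jn en (e1, i1) (a, i)) (jn c (e1, i1) (a, i)) s h := by
      intro h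
      rw [split_wt en c s e1 i1, hd1, hw, wt]
      rw [← Finset.mul_prod_erase univ _ (Finset.mem_univ (⟨a, ha⟩ : {x : E // x ≠ e1}))]
      rw [← Finset.mul_prod_erase univ (fun e : {x : E // x ≠ e1} => _)
        (Finset.mem_univ (⟨a, ha⟩ : {x : E // x ≠ e1}))]
      have hrest : ∏ y ∈ (univ : Finset {x : E // x ≠ e1}).erase ⟨a, ha⟩,
            (h y * ∏ j : Bool, (h y + c (y, j) * s (en (y, j)))) =
          ∏ y ∈ (univ : Finset {x : E // x ≠ e1}).erase ⟨a, ha⟩,
            (h y * ∏ j : Bool, (h y + jn c (e1, i1) (a, i) (y, j) *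
              s (jn en (e1, i1) (a, i) (y, j)))) := by
        refine Finset.prod_congr rfl fun y hy => ?_
        congr 1
        refine Finset.prod_congr rfl fun j _ => ?_
        have h2 : ¬ (((y : E), j) = (a, i)) := by
          intro h3
          apply Finset.ne_of_mem_erase hy
          exact Subtype.ext (congrArg Prod.fst h3)
        simp only [jn, if_neg h2]
      rw [hrest, ← mul_assoc]
      congr 1
      have hj1 : ∀ {T : Type} (q : E × Bool → T),
          jn q (e1, i1) (a, i) (⟨a, ha⟩, i) = q (e1, !i1) := by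
        intro T q
        simp [jn]
      have hj2 : ∀ {T : Type} (q : E × Bool → T),
          jn q (e1, i1) (a, i) (⟨a, ha⟩, !i) = q (a, !i) := by
        intro T q
        simp [jn]
      have hp : ∀ F : Bool → K, ∏ j : Bool, F j = F i * F (!i) := by
        intro F
        rw [Fintype.prod_bool]
        cases i
        · simp [mul_comm]
        · simp
      rw [hp, hp]
      simp only [hj1, hj2, hd, hw]
      have h4 := split_pow4 hK (h ⟨a, ha⟩)
      linear_combination ((h ⟨a, ha⟩ + c (e1, !i1) * s (en (e1, !i1))) *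
        (h ⟨a, ha⟩ + c (a, !i) * s (en (a, !i)))) * h4
    rw [Finset.sum_comm, Zs]
    refine Finset.sum_congr rfl fun h _ => ?_
    have h5 : ∀ g : K, split_ext e1 g h a = h ⟨a, ha⟩ := fun g =>
      split_ext_ne e1 g h ⟨a, ha⟩
    simp only [split_ext_self, h5]
    rw [Finset.sum_ite_eq univ (h ⟨a, ha⟩), if_pos (Finset.mem_univ _)]
    simp only [key, hwt]

theorem split (hK : Fintype.card K = 4) [CharP K 2] (en : E × Bool → V) (c : E × Bool → K) (s : V → K)
    (w : V) (hw : s w = 0) (d1 : E × Bool) (hd : en d1 = w)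
    (hev : Even (univ.filter fun d : E × Bool => en d = w).card) :
    Zs en c s = ∑ d ∈ (univ.filter fun d : E × Bool => en d = w).erase d1,
      Zs (jn en d1 d) (jn c d1 d) s := by
  have h1 : ∀ d ∈ (univ.filter fun d : E × Bool => en d = w).erase d1,
      Zs (jn en d1 d) (jn c d1 d) s = ∑ f : E → K, if f d.1 = f d1.1 then
      (if (∀ v, bd en f v = 0) then wt en c s f else 0) else 0 := by
    intro d hdm
    rw [Finset.mem_erase, Finset.mem_filter] at hdm
    exact split_key hK en c s w hw d1 d hd hdm.2.2 hdm.1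
  rw [Finset.sum_congr rfl h1, Finset.sum_comm, Zs]
  refine Finset.sum_congr rfl fun f _ => ?_
  rw [← Finset.sum_filter, Finset.sum_const]
  split_ifs with h0
  · by_cases hz : wt en c s f = 0
    · rw [hz, smul_zero]
    · have hne : ∀ e, f e ≠ 0 := by
        intro e he
        apply hz
        rw [wt]
        refine Finset.prod_eq_zero (Finset.mem_univ e) ?_
        rw [he, zero_mul]
      have h2 := parity_count hK (univ.filter fun d : E × Bool => en d = w) (fun d => f d.1)
        (fun d _ => hne d.1) (by
          have := h0 w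
          rw [bd, ← Finset.sum_filter] at this
          exact this) hev (f d1.1) (hne d1.1)
      have h3 : ((univ.filter fun d : E × Bool => en d = w).erase d1).filter
          (fun d => f d.1 = f d1.1) =
          (((univ.filter fun d : E × Bool => en d = w)).filter
          (fun d => f d.1 = f d1.1)).erase d1 := by
        ext d
        simp only [Finset.mem_filter, Finset.mem_erase]
        tauto
      rw [h3, Finset.card_erase_of_mem (by simp [hd])]
      have h4 : 0 < (((univ.filter fun d : E × Bool => en d = w)).filter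
          (fun d => f d.1 = f d1.1)).card :=
        Finset.card_pos.mpr ⟨d1, by simp [hd]⟩
      obtain ⟨k, hk⟩ := h2
      obtain ⟨m, hm⟩ : ∃ m, k = m + 1 := ⟨k - 1, by omega⟩
      rw [hk, hm]
      have h5 : m + 1 + (m + 1) - 1 = 2 * m + 1 := by omega
      rw [h5, nsmul_eq_mul]
      push_cast
      rw [CharTwo.two_eq_zero]
      ring
  · simp




theorem cw_ind (hK : Fintype.card K = 4) (x : K) : (1 : K) - x ^ 3 = if x = 0 then 1 else 0 := by
  split_ifs with h
  · rw [h]; simp
  · have := FiniteField.pow_card_sub_one_eq_one x h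
    rw [hK] at this
    norm_num at this
    rw [this, sub_self]

theorem cw_prod_ind {ι : Type} [DecidableEq ι] (S : Finset ι) (p : ι → Prop) [DecidablePred p] :
    (∏ i ∈ S, (if p i then (1 : K) else 0)) = if ∀ i ∈ S, p i then 1 else 0 := by
  rw [Finset.prod_ite_zero]
  simp

theorem cw_bd [CharP K 2] (en : E × Bool → V) (U : Finset V) (hn : ∀ d, en d ∈ U) (r : V)
    (hr : r ∈ U) (f : E → K) :
    (∀ v, bd en f v = 0) ↔ ∀ v ∈ U.erase r, bd en f v = 0 := by
  constructor
  · intro h v _
    exact h v
  · intro h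
    have hout : ∀ v, v ≠ r → bd en f v = 0 := by
      intro v hv
      by_cases hvU : v ∈ U
      · exact h v (Finset.mem_erase.2 ⟨hv, hvU⟩)
      · unfold bd
        refine Finset.sum_eq_zero fun d _ => ?_
        rw [if_neg]
        rintro rfl
        exact hvU (hn d)
    have hsum : ∑ v, bd en f v = 0 := by
      unfold bd
      rw [Finset.sum_comm]
      simp only [Finset.sum_ite_eq, Finset.mem_univ, if_true]
      rw [Fintype.sum_prod_type]
      refine Finset.sum_eq_zero fun e _ => ?_
      simp only [Fintype.sum_bool]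
      exact CharTwo.add_self_eq_zero _
    have hr0 : bd en f r = 0 := by
      rw [← hsum, Finset.sum_eq_single r]
      · intro v _ hv
        exact hout v hv
      · intro h'
        exact absurd (Finset.mem_univ r) h'
    intro v
    by_cases hv : v = r
    · rw [hv]; exact hr0
    · exact hout v hv

open MvPolynomial in
/-- the polynomial -/
noncomputable def cwP (en : E × Bool → V) (c : E × Bool → K) (U : Finset V) (r : V) :
    MvPolynomial (E ⊕ V) K :=
  ((∏ v ∈ Uᶜ, (1 - X (Sum.inr v) ^ 3)) *
    ∏ v ∈ U.erase r, (1 - (∑ d : E × Bool, if en d = v then X (Sum.inl d.1) else 0) ^ 3)) *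
    ∏ e : E, (X (Sum.inl e) * ∏ i : Bool, (X (Sum.inl e) + C (c (e, i)) * X (Sum.inr (en (e, i)))))

open MvPolynomial in
theorem cwP_eval (hK : Fintype.card K = 4) [CharP K 2] (en : E × Bool → V) (c : E × Bool → K)
    (U : Finset V) (hn : ∀ d, en d ∈ U) (r : V) (hr : r ∈ U) (f : E → K) (s : V → K) :
    eval (Sum.elim f s) (cwP en c U r) =
      if ∀ v ∉ U, s v = 0 then (if (∀ v, bd en f v = 0) then wt en c s f else 0) else 0 := by
  unfold cwP
  simp only [map_mul, map_prod, map_sub, map_pow, map_one, eval_X, Sum.elim_inr, Sum.elim_inl,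
    map_add, eval_C, map_sum]
  have h1 : ∀ v, (∑ d : E × Bool, eval (Sum.elim f s)
      (if en d = v then (X (Sum.inl d.1) : MvPolynomial (E ⊕ V) K) else 0)) = bd en f v := by
    intro v
    unfold bd
    refine Finset.sum_congr rfl fun d _ => ?_
    split_ifs
    · simp
    · simp
  simp only [h1, cw_ind hK]
  rw [cw_prod_ind, cw_prod_ind]
  have h2 : (∀ i ∈ Uᶜ, s i = 0) ↔ ∀ v ∉ U, s v = 0 := by
    simp only [Finset.mem_compl]
  have h3 : (∀ i ∈ U.erase r, bd en f i = 0) ↔ ∀ v, bd en f v = 0 := (cw_bd en U hn r hr f).symm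
  simp only [h2, h3]
  unfold wt
  by_cases ha : ∀ v ∉ U, s v = 0
  · rw [if_pos ha, if_pos ha]
    by_cases hb : ∀ v, bd en f v = 0
    · rw [if_pos hb, if_pos hb]; simp
    · rw [if_neg hb, if_neg hb]; simp
  · rw [if_neg ha, if_neg ha]; simp

open MvPolynomial in
theorem cwP_deg (en : E × Bool → V) (c : E × Bool → K)
    (U : Finset V) (r : V) (hr : r ∈ U) :
    (cwP en c U r).totalDegree < 3 * Fintype.card (E ⊕ V) := by
  have d1 : (∏ v ∈ Uᶜ, (1 - X (Sum.inr v) ^ 3 : MvPolynomial (E ⊕ V) K)).totalDegree ≤
      3 * Uᶜ.card := by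
    refine (totalDegree_finsetProd _ _).trans ?_
    rw [mul_comm, ← smul_eq_mul]
    refine Finset.sum_le_card_nsmul _ _ _ fun v _ => ?_
    refine (totalDegree_sub _ _).trans (max_le (by simp) ?_)
    refine (totalDegree_pow _ _).trans ?_
    rw [totalDegree_X]
  have dlin : ∀ v, (∑ d : E × Bool, if en d = v then
      (X (Sum.inl d.1) : MvPolynomial (E ⊕ V) K) else 0).totalDegree ≤ 1 := by
    intro v
    refine totalDegree_finsetSum_le fun d _ => ?_
    split_ifs
    · rw [totalDegree_X]
    · simp
  have d2 : (∏ v ∈ U.erase r, (1 - (∑ d : E × Bool, if en d = v then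
      (X (Sum.inl d.1) : MvPolynomial (E ⊕ V) K) else 0) ^ 3)).totalDegree ≤
      3 * (U.erase r).card := by
    refine (totalDegree_finsetProd _ _).trans ?_
    rw [mul_comm, ← smul_eq_mul]
    refine Finset.sum_le_card_nsmul _ _ _ fun v _ => ?_
    refine (totalDegree_sub _ _).trans (max_le (by simp) ?_)
    refine (totalDegree_pow _ _).trans ?_
    have := dlin v
    omega
  have d3 : (∏ e : E, (X (Sum.inl e) * ∏ i : Bool, (X (Sum.inl e) + C (c (e, i)) *
      X (Sum.inr (en (e, i)))) : MvPolynomial (E ⊕ V) K)).totalDegree ≤ 3 * Fintype.card E := by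
    refine (totalDegree_finsetProd _ _).trans ?_
    rw [mul_comm, ← smul_eq_mul, ← Finset.card_univ]
    refine Finset.sum_le_card_nsmul _ _ _ fun e _ => ?_
    refine (totalDegree_mul _ _).trans ?_
    have hx : (X (Sum.inl e) : MvPolynomial (E ⊕ V) K).totalDegree = 1 := totalDegree_X _
    have hp : (∏ i : Bool, (X (Sum.inl e) + C (c (e, i)) *
        X (Sum.inr (en (e, i)))) : MvPolynomial (E ⊕ V) K).totalDegree ≤ 2 := by
      refine (totalDegree_finsetProd _ _).trans ?_
      have hf : ∀ i : Bool, ((X (Sum.inl e) + C (c (e, i)) *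
          X (Sum.inr (en (e, i)))) : MvPolynomial (E ⊕ V) K).totalDegree ≤ 1 := by
        intro i
        refine (totalDegree_add _ _).trans (max_le (by rw [totalDegree_X]) ?_)
        refine (totalDegree_mul _ _).trans ?_
        rw [totalDegree_C, totalDegree_X]
      rw [Fintype.sum_bool]
      have := hf true
      have := hf false
      omega
    omega
  unfold cwP
  refine lt_of_le_of_lt (totalDegree_mul _ _) ?_
  refine lt_of_le_of_lt (Nat.add_le_add_right (totalDegree_mul _ _) _) ?_
  have hc1 : Uᶜ.card = Fintype.card V - U.card := Finset.card_compl U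
  have hc2 : (U.erase r).card = U.card - 1 := Finset.card_erase_of_mem hr
  have hc3 : 0 < U.card := Finset.card_pos.2 ⟨r, hr⟩
  have hc4 : U.card ≤ Fintype.card V := Finset.card_le_univ U
  rw [Fintype.card_sum]
  omega

/-- Chevalley-Warning part -/
theorem cw (hK : Fintype.card K = 4) [CharP K 2] (en : E × Bool → V) (c : E × Bool → K) (U : Finset V)
    (hU : U.Nonempty) (hn : ∀ d, en d ∈ U) :
    ∑ s : V → K, (if ∀ v ∉ U, s v = 0 then Zs en c s else 0) = 0 := by
  obtain ⟨r, hr⟩ := hU
  have h0 := MvPolynomial.sum_eval_eq_zero (K := K) (cwP en c U r) (by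
    rw [hK]
    exact cwP_deg en c U r hr)
  refine Eq.trans ?_ h0
  have h1 : ∑ x : E ⊕ V → K, MvPolynomial.eval x (cwP en c U r) =
      ∑ p : (E → K) × (V → K), MvPolynomial.eval (Sum.elim p.1 p.2) (cwP en c U r) := by
    refine Fintype.sum_equiv (Equiv.sumArrowEquivProdArrow E V K) _ _ fun x => ?_
    congr 1
    congr 1
    funext y
    cases y <;> rfl
  rw [h1, Fintype.sum_prod_type_right]
  refine Finset.sum_congr rfl fun s _ => ?_
  simp only [cwP_eval hK en c U hn r hr]
  unfold Zs
  split_ifs
  · rfl
  · simp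


theorem bd_jn [CharP K 2] (en : E × Bool → V) (d1 d : E × Bool) (h : en d = en d1)
    (hne : d ≠ d1) (v : V) :
    bd (jn en d1 d) (fun _ => (1 : K)) v = bd en (fun _ => (1 : K)) v := by
  obtain ⟨e1, i1⟩ := d1
  obtain ⟨a, i⟩ := d
  have hext : (fun _ : E => (1 : K)) = split_ext e1 1 (fun _ => 1) := by
    funext x
    simp [split_ext]
  rw [hext, split_bd en e1 i1]
  by_cases ha : a = e1
  · subst ha
    have hi : i = !i1 := by
      cases i <;> cases i1 <;> simp_all
    subst hi
    have hj : ∀ y : {x : E // x ≠ a} × Bool,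
        jn en (a, i1) (a, !i1) y = en (y.1, y.2) := by
      intro y
      simp only [jn]
      rw [if_neg]
      intro h0
      exact y.1.2 (congrArg Prod.fst h0)
    rw [h, CharTwo.add_self_eq_zero, zero_add, bd]
    simp only [hj]
  · rw [bd]
    have h1 : ∀ y : {x : E // x ≠ e1} × Bool,
        (if jn en (e1, i1) (a, i) y = v then (1 : K) else 0) =
        (if en (y.1, y.2) = v then 1 else 0) +
        (if y = (⟨a, ha⟩, i) then ((if en (e1, !i1) = v then 1 else 0) -
          (if en (e1, i1) = v then 1 else 0)) else 0) := by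
      rintro ⟨⟨b, hb⟩, j⟩
      by_cases hbj : (b, j) = (a, i)
      · simp only [Prod.mk.injEq] at hbj
        obtain ⟨rfl, rfl⟩ := hbj
        simp only [jn, if_true, h]
        ring
      · have h2 : ¬ ((⟨b, hb⟩, j) : {x : E // x ≠ e1} × Bool) = (⟨a, ha⟩, i) := by
          intro h3
          apply hbj
          simp only [Prod.mk.injEq, Subtype.mk.injEq] at h3
          rw [h3.1, h3.2]
        rw [if_neg h2, add_zero]
        simp only [jn, if_neg hbj]
    simp only [h1]
    rw [Finset.sum_add_distrib, Finset.sum_ite_eq' univ, if_pos (Finset.mem_univ _)]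
    rw [CharTwo.sub_eq_add]
    ring

theorem main_A (hK : Fintype.card K = 4) [CharP K 2] (n : ℕ) :
    ∀ (E : Type) [Fintype E] [DecidableEq E] (en : E × Bool → V) (c : E × Bool → K),
    Fintype.card E = n → (∀ v, bd en (fun _ => (1 : K)) v = 0) → ∀ U : Finset V,
    ∑ s : V → K, (if ∀ v ∉ U, s v = 0 then Zs en c s else 0) = if U = ∅ then 1 else 0 := by
  induction n with
  | zero =>
    intro E _ _ en c hE hd U
    have hem : IsEmpty E := Fintype.card_eq_zero_iff.1 hE
    by_cases hU : U = ∅
    · subst hU
      rw [if_pos rfl]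
      rw [Finset.sum_eq_single (0 : V → K)]
      · simp [Zs, bd, wt]
      · intro s _ hs
        rw [if_neg]
        intro h
        exact hs (funext fun v => h v (by simp))
      · simp
    · rw [if_neg hU]
      exact cw hK en c U (nonempty_iff_ne_empty.2 hU) (fun d => (hem.false d.1).elim)
  | succ n ih =>
    intro E _ _ en c hE hd U
    by_cases hex : ∃ d1, en d1 ∉ U
    · obtain ⟨d1, hd1⟩ := hex
      have hev : Even (univ.filter fun d : E × Bool => en d = en d1).card := by
        have := hd (en d1)
        unfold bd at this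
        rw [← Finset.sum_filter, Finset.sum_const, nsmul_eq_mul, mul_one,
          CharP.cast_eq_zero_iff K 2] at this
        exact even_iff_two_dvd.2 this
      have key : ∀ s : V → K, (if ∀ v ∉ U, s v = 0 then Zs en c s else 0) =
          ∑ d ∈ (univ.filter fun d : E × Bool => en d = en d1).erase d1,
            (if ∀ v ∉ U, s v = 0 then Zs (jn en d1 d) (jn c d1 d) s else 0) := by
        intro s
        by_cases hs : ∀ v ∉ U, s v = 0
        · simp only [if_pos hs]
          exact split hK en c s (en d1) (hs _ hd1) d1 rfl hev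
        · simp only [if_neg hs, Finset.sum_const_zero]
      rw [Finset.sum_congr rfl fun s _ => key s, Finset.sum_comm]
      have hcard : Fintype.card {x : E // x ≠ d1.1} = n := by
        rw [Fintype.card_subtype_compl, hE]
        simp
      have key2 : ∀ d ∈ (univ.filter fun d : E × Bool => en d = en d1).erase d1,
          ∑ s : V → K, (if ∀ v ∉ U, s v = 0 then Zs (jn en d1 d) (jn c d1 d) s else 0) =
            if U = ∅ then 1 else 0 := by
        intro d hd2
        rw [mem_erase, mem_filter] at hd2
        apply ih _ _ _ hcard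
        intro v
        rw [← hd v]
        exact bd_jn en d1 d hd2.2.2 hd2.1 v
      rw [Finset.sum_congr rfl key2, Finset.sum_const]
      have hodd : Odd ((univ.filter fun d : E × Bool => en d = en d1).erase d1).card := by
        rw [card_erase_of_mem (by simp)]
        have hpos : 0 < (univ.filter fun d : E × Bool => en d = en d1).card :=
          card_pos.2 ⟨d1, by simp⟩
        obtain ⟨k, hk⟩ := hev
        exact ⟨k - 1, by omega⟩
      obtain ⟨k, hk⟩ := hodd
      rw [hk, nsmul_eq_mul]
      have h2 : (2 : K) = 0 := by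
        have := CharP.cast_eq_zero K 2
        exact_mod_cast this
      push_cast
      rw [h2]
      ring
    · push Not at hex
      have hEne : Nonempty E := by
        apply Fintype.card_pos_iff.1
        omega
      obtain ⟨e⟩ := hEne
      have hUne : U.Nonempty := ⟨_, hex (e, true)⟩
      rw [if_neg hUne.ne_empty]
      exact cw hK en c U hUne hex

theorem exists_sol (hK : Fintype.card K = 4) [CharP K 2] (en : E × Bool → V) (c : E × Bool → K)
    (hd : ∀ v, Even (univ.filter fun d : E × Bool => en d = v).card) :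
    ∃ (s : V → K) (f : E → K), (∀ v, s v ≠ 0) ∧ (∀ e, f e ≠ 0) ∧
      (∀ d : E × Bool, f d.1 ≠ c d * s (en d)) ∧
      ∀ g : K, g ≠ 0 → ∀ v, Even (univ.filter fun d : E × Bool => en d = v ∧ f d.1 = g).card := by
  have h2 : (2 : K) = 0 := by
    have := CharP.cast_eq_zero K 2
    exact_mod_cast this
  have hd' : ∀ v, bd en (fun _ => (1 : K)) v = 0 := by
    intro v
    unfold bd
    rw [← Finset.sum_filter, Finset.sum_const, nsmul_eq_mul, mul_one,
      CharP.cast_eq_zero_iff K 2]
    exact even_iff_two_dvd.1 (hd v)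
  have h1 : ∑ U : Finset V, ∑ s : V → K, (if ∀ v ∉ U, s v = 0 then Zs en c s else 0) = 1 := by
    rw [Finset.sum_congr rfl fun U _ => main_A hK _ E en c rfl hd' U]
    simp
  rw [Finset.sum_comm] at h1
  obtain ⟨s, -, hs⟩ := Finset.exists_ne_zero_of_sum_ne_zero (by rw [h1]; exact one_ne_zero)
  have hs1 : ∑ U : Finset V, (if ∀ v ∉ U, s v = 0 then Zs en c s else 0) =
      (((univ.filter fun U : Finset V => ∀ v ∉ U, s v = 0).card : ℕ) : K) * Zs en c s := by
    rw [← Finset.sum_filter, Finset.sum_const, nsmul_eq_mul]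
  rw [hs1] at hs
  have hs2 : ∀ v, s v ≠ 0 := by
    by_contra hcon
    push Not at hcon
    obtain ⟨v0, hv0⟩ := hcon
    apply hs
    have : (univ.filter fun U : Finset V => ∀ v ∉ U, s v = 0) = Icc (univ.filter fun v => s v ≠ 0) univ := by
      ext U
      simp only [mem_filter, mem_univ, true_and, mem_Icc, subset_univ, and_true]
      constructor
      · intro h v hv
        rw [mem_filter] at hv
        by_contra hvU
        exact hv.2 (h v hvU)
      · intro h v hv
        by_contra hsv
        exact hv (h (by simp [hsv]))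
    rw [this, Finset.card_Icc_finset (subset_univ _)]
    have hlt : (univ.filter fun v => s v ≠ 0).card < (univ : Finset V).card := by
      apply card_lt_card
      rw [Finset.ssubset_iff_subset_ne]
      refine ⟨subset_univ _, fun h => ?_⟩
      have : v0 ∈ (univ.filter fun v => s v ≠ 0) := by rw [h]; simp
      rw [mem_filter] at this
      exact this.2 hv0
    obtain ⟨k, hk⟩ : ∃ k, (univ : Finset V).card - (univ.filter fun v => s v ≠ 0).card = k + 1 :=
      ⟨_, (Nat.succ_pred_eq_of_pos (by omega)).symm⟩
    rw [hk]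
    push_cast
    rw [h2, pow_succ, mul_zero, zero_mul]
  have hZ : Zs en c s ≠ 0 := right_ne_zero_of_mul hs
  obtain ⟨f, -, hf⟩ := Finset.exists_ne_zero_of_sum_ne_zero hZ
  have hbd : ∀ v, bd en f v = 0 := by
    by_contra hcon
    rw [if_neg hcon] at hf
    exact hf rfl
  rw [if_pos hbd] at hf
  unfold wt at hf
  rw [Finset.prod_ne_zero_iff] at hf
  have hf0 : ∀ e, f e ≠ 0 := fun e => left_ne_zero_of_mul (hf e (mem_univ _))
  refine ⟨s, f, hs2, hf0, ?_, ?_⟩
  · rintro ⟨e, i⟩ hcon
    have h3 := right_ne_zero_of_mul (hf e (mem_univ _))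
    rw [Finset.prod_ne_zero_iff] at h3
    have h4 := h3 i (mem_univ _)
    apply h4
    simp only at hcon
    rw [hcon, ← two_mul, h2, zero_mul]
  · intro g hg v
    have h3 := parity_count hK (univ.filter fun d : E × Bool => en d = v) (fun d => f d.1)
      (fun d _ => hf0 d.1) (by have := hbd v; unfold bd at this; rwa [← Finset.sum_filter] at this)
      (hd v) g hg
    rwa [filter_filter] at h3


end alg
end Pool.Agent.Helper998.Kotz
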