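import Pool.Agent.Helper998.Kotz.Graph
set_option autoImplicit false
open Finset

namespace Pool.Agent.Helper998.Kotz

open scoped Classical

variable {V E : Type} [Fintype V] [Fintype E]

theorem coreC {K : Type} [Field K] [Fintype K] (hK : Fintype.card K = 4) [CharP K 2]
    (ends : E → Sym2 V) (hl : ∀ e, ¬ (ends e).IsDiag) (H : Finset E) (A : ZMod 3 → Finset E)
    (N : Finset E) (kk : V → ZMod 3) (hA : ∀ m, A m ⊆ H) (hN : N ⊆ H)
    (hcov : ∀ e ∈ H, (univ.filter fun m => e ∈ A m).card = if e ∈ N then 0 else 2)
    (hev : ∀ m v, Even ((A m).filter fun e => v ∈ ends e).card)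
    (hcon : ∀ m : ZMod 3, ∀ v w, (RG ends H).Reachable v w →
      (∃ e ∈ A m, v ∈ ends e) → (∃ e ∈ A m, w ∈ ends e) → (RG ends (A m)).Reachable v w)
    (hatt : ∀ e ∉ H, ∀ v ∈ ends e, ∀ m, m ≠ kk v → ∃ e' ∈ A m, v ∈ ends e')
    (hNA : ∀ e ∈ N, ∀ v ∈ ends e, ∃ e' ∈ A 1, v ∈ ends e')
    (hpar : ∀ C : (RG ends H).ConnectedComponent, Even (univ.filter fun d : {e // e ∉ H} × Bool =>
      (RG ends H).connectedComponentMk (vx ends d.1 d.2) = C).card) :
    ∃ S : {X : K // X ≠ 0} × Bool → Finset E,
      (∀ i v, Even ((S i).filter fun e => v ∈ ends e).card) ∧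
      ∀ e, (univ.filter fun i => e ∈ S i).card = 2 := by
  have hcard3 : Fintype.card {x : K // x ≠ 0} = 3 := by
    rw [Fintype.card_subtype_compl, hK]; simp
  have hκ0 : Fintype.card (ZMod 3) = Fintype.card {x : K // x ≠ 0} := by
    rw [hcard3]; rfl
  let κ : ZMod 3 ≃ {x : K // x ≠ 0} := Fintype.equivOfCardEq hκ0
  let cp : V → (RG ends H).ConnectedComponent := fun v => (RG ends H).connectedComponentMk v
  obtain ⟨s, f, hs, hf, hne, hpar'⟩ := exists_sol' hK (V := (RG ends H).ConnectedComponent)
    (E := {e // e ∉ H}) (fun d => cp (vx ends d.1 d.2))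
    (fun d => (κ (kk (vx ends d.1 d.2)) : K)) hpar
  -- missing index
  have hmm : ∀ (X : {x : K // x ≠ 0}) (C : (RG ends H).ConnectedComponent),
      ∃ m : ZMod 3, (κ m : K) * s C = X := by
    intro X C
    refine ⟨κ.symm ⟨X / s C, div_ne_zero X.2 (hs _)⟩, ?_⟩
    rw [Equiv.apply_symm_apply]
    exact div_mul_cancel₀ (X : K) (hs _)
  choose mm hmm1 using hmm
  have hmm2 : ∀ (X : {x : K // x ≠ 0}) C m, (κ m : K) * s C = X → mm X C = m := by
    intro X C m h
    have h1 := (hmm1 X C).trans h.symm
    rw [mul_left_inj' (hs _), Subtype.coe_inj, κ.apply_eq_iff_eq] at h1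
    exact h1
  have hcpe : ∀ e ∈ H, ∀ v ∈ ends e, cp (vx ends e false) = cp v := by
    intro e he v hv
    exact SimpleGraph.ConnectedComponent.sound (RG_edge ends H e he (vx_mem ends e false) hv)
  let D : {x : K // x ≠ 0} → Finset E := fun X => H.filter fun e => e ∈ A (mm X (cp (vx ends e false)))
  let NX : {x : K // x ≠ 0} → Finset E := fun X => N.filter fun e => mm X (cp (vx ends e false)) = 1
  have hDmem : ∀ X v e, v ∈ ends e → (e ∈ D X ↔ e ∈ A (mm X (cp v))) := by
    intro X v e hv
    simp only [D, mem_filter]
    constructor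
    · rintro ⟨he, h⟩
      rwa [hcpe e he v hv] at h
    · intro h
      have he := hA _ h
      refine ⟨he, ?_⟩
      rwa [hcpe e he v hv]
  -- L1
  have hDev : ∀ X, ∀ v, Even ((D X).filter fun e => v ∈ ends e).card := by
    intro X v
    have h1 : ((D X).filter fun e => v ∈ ends e) = (A (mm X (cp v))).filter fun e => v ∈ ends e := by
      ext e
      simp only [mem_filter]
      constructor
      · rintro ⟨h2, h3⟩
        exact ⟨(hDmem X v e h3).1 h2, h3⟩
      · rintro ⟨h2, h3⟩
        exact ⟨(hDmem X v e h3).2 h2, h3⟩
    rw [h1]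
    exact hev _ _
  -- t
  let td : {x : K // x ≠ 0} → V → ZMod 2 := fun X v =>
    ((univ.filter fun d : {e // e ∉ H} × Bool => vx ends d.1 d.2 = v ∧ f d.1 = X).card : ZMod 2)
  let tn : {x : K // x ≠ 0} → V → ZMod 2 := fun X v =>
    (((NX X).filter fun e => v ∈ ends e).card : ZMod 2)
  let t : {x : K // x ≠ 0} → V → ZMod 2 := fun X v => td X v + tn X v
  have hL2 : ∀ X v, t X v ≠ 0 → ∃ e ∈ D X, v ∈ ends e := by
    intro X v htv
    by_cases htd : td X v = 0
    · have htn : tn X v ≠ 0 := by
        intro h
        apply htv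
        simp only [t]
        rw [htd, h, add_zero]
      have hpos : ((NX X).filter fun e => v ∈ ends e).Nonempty := by
        rw [nonempty_iff_ne_empty]
        intro h
        apply htn
        simp only [tn, h]
        simp
      obtain ⟨e, he⟩ := hpos
      rw [mem_filter] at he
      obtain ⟨he, hv⟩ := he
      simp only [NX, mem_filter] at he
      obtain ⟨e', he', hv'⟩ := hNA e he.1 v hv
      refine ⟨e', (hDmem X v e' hv').2 ?_, hv'⟩
      rw [← hcpe e (hN he.1) v hv, he.2]
      exact he'
    · have hpos : (univ.filter fun d : {e // e ∉ H} × Bool => vx ends d.1 d.2 = v ∧ f d.1 = X).Nonempty := by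
        rw [nonempty_iff_ne_empty]
        intro h
        apply htd
        simp only [td, h]
        simp
      obtain ⟨d, hd⟩ := hpos
      rw [mem_filter] at hd
      obtain ⟨-, hd1, hd2⟩ := hd
      have h3 := hne d
      have hvd : v ∈ ends (d.1 : E) := by rw [← hd1]; exact vx_mem ends _ _
      obtain ⟨e', he', hv'⟩ := hatt d.1 d.1.2 v hvd (mm X (cp v)) (by
        intro h4
        apply h3
        rw [hd2, hd1, ← h4]
        exact (hmm1 X (cp v)).symm)
      exact ⟨e', (hDmem X v e' hv').2 he', hv'⟩
  -- L3
  have hL3 : ∀ X, ∀ v w, (RG ends H).Reachable v w → (∃ e ∈ D X, v ∈ ends e) →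
      (∃ e ∈ D X, w ∈ ends e) → (RG ends (D X)).Reachable v w := by
    intro X v w hvw ⟨e, he, hve⟩ ⟨e', he', hwe⟩
    have hcw : cp v = cp w := SimpleGraph.ConnectedComponent.sound hvw
    have h1 := hcon (mm X (cp v)) v w hvw ⟨e, (hDmem X v e hve).1 he, hve⟩
      ⟨e', by rw [hcw]; exact (hDmem X w e' hwe).1 he', hwe⟩
    rw [SimpleGraph.reachable_iff_reflTransGen] at h1
    have h2 : ∀ z, Relation.ReflTransGen (RG ends (A (mm X (cp v)))).Adj v z →
        (RG ends (D X)).Reachable v z ∧ cp v = cp z := by
      intro z hz
      induction hz with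
      | refl => exact ⟨SimpleGraph.Reachable.refl _, rfl⟩
      | @tail b c _ hab ih =>
        rw [RG_adj] at hab
        obtain ⟨hbc, f', hf', hf''⟩ := hab
        have hb : b ∈ ends f' := by rw [hf'']; exact Sym2.mem_mk_left _ _
        have hc : c ∈ ends f' := by rw [hf'']; exact Sym2.mem_mk_right _ _
        have hfD : f' ∈ D X := (hDmem X b f' hb).2 (by rw [← ih.2]; exact hf')
        refine ⟨ih.1.trans (RG_edge ends _ f' hfD hb hc), ih.2.trans ?_⟩
        exact SimpleGraph.ConnectedComponent.sound (RG_edge ends H f' (hA _ hf') hb hc)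
    exact (h2 w h1).1
  -- sum of t over a component
  have hsumn : ∀ X v0, ∑ v ∈ univ.filter (fun v => cp v = cp v0), tn X v = 0 := by
    intro X v0
    simp only [tn]
    have h1 : ∀ v, (((NX X).filter fun e => v ∈ ends e).card : ZMod 2) =
        ∑ e ∈ NX X, (if v ∈ ends e then 1 else 0) := by
      intro v
      rw [Finset.card_filter]
      push_cast
      rfl
    simp only [h1]
    rw [Finset.sum_comm]
    apply Finset.sum_eq_zero
    intro e he
    have heH : e ∈ H := hN (filter_subset _ _ he)
    rw [← Finset.sum_filter, Finset.sum_const, filter_filter]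
    by_cases hc : cp (vx ends e false) = cp v0
    · have h2 : (univ.filter fun v => cp v = cp v0 ∧ v ∈ ends e) = {vx ends e false, vx ends e true} := by
        ext v
        simp only [mem_filter, mem_univ, true_and, mem_insert, mem_singleton]
        have h6 : v ∈ ends e ↔ v = vx ends e false ∨ v = vx ends e true := by
          conv_lhs => rw [vx_spec ends e]
          exact Sym2.mem_iff
        constructor
        · rintro ⟨-, h7⟩
          exact h6.1 h7
        · intro h7
          have h8 := h6.2 h7
          exact ⟨(hcpe e heH v h8).symm.trans hc, h8⟩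
      rw [h2, card_pair (vx_ne ends hl e)]
      decide
    · have h2 : (univ.filter fun v => cp v = cp v0 ∧ v ∈ ends e) = ∅ := by
        rw [filter_eq_empty_iff]
        rintro v - ⟨h7, h8⟩
        exact hc ((hcpe e heH v h8).trans h7)
      rw [h2]; simp
  have hL4 : ∀ X, ∀ u : V, ∑ v ∈ univ.filter (fun v => (RG ends (D X)).Reachable u v), t X v = 0 := by
    intro X u
    by_cases hex2 : ∃ v, (RG ends (D X)).Reachable u v ∧ t X v ≠ 0
    · obtain ⟨v0, hv1, hv2⟩ := hex2
      have hDH : D X ⊆ H := filter_subset _ _
      have h1 : ∑ v ∈ univ.filter (fun v => (RG ends (D X)).Reachable u v), t X v =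
          ∑ v ∈ univ.filter (fun v => cp v = cp v0), t X v := by
        apply Finset.sum_subset
        · intro v hv
          rw [mem_filter] at hv ⊢
          refine ⟨mem_univ _, ?_⟩
          exact SimpleGraph.ConnectedComponent.sound (RG_mono ends _ _ hDH (hv.2.symm.trans hv1))
        · intro v hv hv'
          by_contra htv
          apply hv'
          rw [mem_filter] at hv ⊢
          refine ⟨mem_univ _, hv1.trans ?_⟩
          exact hL3 X v0 v (SimpleGraph.ConnectedComponent.exact hv.2.symm) (hL2 X v0 hv2) (hL2 X v htv)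
      rw [h1]
      simp only [t]
      rw [Finset.sum_add_distrib, hsumn X v0, add_zero]
      have h2 : ∑ v ∈ univ.filter (fun v => cp v = cp v0), td X v =
          ((univ.filter fun d : {e // e ∉ H} × Bool => cp (vx ends d.1 d.2) = cp v0 ∧ f d.1 = X).card : ZMod 2) := by
        rw [Finset.card_eq_sum_card_fiberwise (f := fun d : {e // e ∉ H} × Bool => vx ends d.1 d.2)
          (t := univ.filter fun v => cp v = cp v0)]
        · push_cast
          apply Finset.sum_congr rfl
          intro v hv
          rw [mem_filter] at hv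
          simp only [td]
          congr 2
          ext d
          simp only [mem_filter, mem_univ, true_and]
          constructor
          · rintro ⟨h3, h4⟩
            exact ⟨⟨by rw [h3]; exact hv.2, h4⟩, h3⟩
          · rintro ⟨⟨-, h4⟩, h3⟩
            exact ⟨h3, h4⟩
        · intro d hd
          rw [mem_coe, mem_filter] at hd ⊢
          exact ⟨mem_univ _, hd.2.1⟩
      rw [h2, ZMod.natCast_eq_zero_iff_even]
      exact hpar' X X.2 (cp v0)
    · push Not at hex2
      apply Finset.sum_eq_zero
      intro v hv
      rw [mem_filter] at hv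
      exact hex2 v hv.2
  choose J hJ1 hJ2 using fun X : {X : K // X ≠ 0} => tjoin' ends hl (D X) (t X) (hL4 X)
  let MX : {x : K // x ≠ 0} → Finset E := fun X =>
    (univ.filter fun e : {e // e ∉ H} => f e = X).map ⟨Subtype.val, Subtype.val_injective⟩
  have hMmem : ∀ X e, e ∈ MX X ↔ ∃ h : e ∉ H, f ⟨e, h⟩ = X := by
    intro X e
    simp only [MX, mem_map, mem_filter, mem_univ, true_and, Function.Embedding.coeFn_mk]
    constructor
    · rintro ⟨a, h1, rfl⟩
      exact ⟨a.2, h1⟩
    · rintro ⟨h, h1⟩
      exact ⟨⟨e, h⟩, h1, rfl⟩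
  have hMt : ∀ X v, (((MX X).filter fun e => v ∈ ends e).card : ZMod 2) = td X v := by
    intro X v
    simp only [MX, td]
    rw [filter_map, card_map, filter_filter]
    rw [Finset.card_filter, Finset.card_filter, Fintype.sum_prod_type]
    push_cast
    apply Finset.sum_congr rfl
    intro e _
    have h1 := card_darts ends hl e v
    rw [Finset.card_filter] at h1
    simp only [Function.comp, Function.Embedding.coeFn_mk]
    by_cases hfe : f e = X
    · simp only [hfe, true_and, and_true]
      have h2 := congrArg (fun n : ℕ => (n : ZMod 2)) h1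
      simp only [Nat.cast_sum, Nat.cast_ite, Nat.cast_one, Nat.cast_zero] at h2
      rw [h2]
    · simp [hfe]
  have hNA0 : ∀ e ∈ N, ∀ m, e ∉ A m := by
    intro e he m hm
    have h1 := hcov e (hN he)
    rw [if_pos he, card_eq_zero, filter_eq_empty_iff] at h1
    exact h1 (mem_univ m) hm
  refine ⟨fun i => (MX i.1 ∪ NX i.1) ∪ (if i.2 then J i.1 else D i.1 \ J i.1), ?_, ?_⟩
  · rintro ⟨X, b⟩ v
    have hDH : D X ⊆ H := filter_subset _ _
    have hNH : NX X ⊆ N := filter_subset _ _
    have hdisj1 : Disjoint ((MX X).filter fun e => v ∈ ends e) ((NX X).filter fun e => v ∈ ends e) := by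
      rw [Finset.disjoint_left]
      intro e he he'
      rw [mem_filter] at he he'
      obtain ⟨h, -⟩ := (hMmem X e).1 he.1
      exact h (hN (hNH he'.1))
    have hdisj : ∀ T : Finset E, T ⊆ D X → Disjoint ((MX X ∪ NX X).filter fun e => v ∈ ends e) (T.filter fun e => v ∈ ends e) := by
      intro T hT
      rw [Finset.disjoint_left]
      intro e he he'
      rw [mem_filter] at he he'
      rcases mem_union.1 he.1 with h5 | h5
      · obtain ⟨h, -⟩ := (hMmem X e).1 h5
        exact h (hDH (hT he'.1))
      · exact hNA0 e (hNH h5) _ (mem_filter.1 (hT he'.1)).2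
    rw [← ZMod.natCast_eq_zero_iff_even]
    cases b
    · simp only [Bool.false_eq_true, if_false]
      rw [filter_union, card_union_of_disjoint (hdisj _ sdiff_subset), filter_union,
        card_union_of_disjoint hdisj1]
      have h1 : ((D X \ J X).filter fun e => v ∈ ends e).card + ((J X).filter fun e => v ∈ ends e).card =
          ((D X).filter fun e => v ∈ ends e).card := by
        rw [← card_union_of_disjoint, ← filter_union, sdiff_union_of_subset (hJ1 X)]
        rw [Finset.disjoint_left]
        intro e he he'
        rw [mem_filter] at he he'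
        exact (mem_sdiff.1 he.1).2 he'.1
      have h2 := (ZMod.natCast_eq_zero_iff_even).2 (hDev X v)
      rw [← h1] at h2
      push_cast at h2 ⊢
      rw [hJ2 X v] at h2
      rw [hMt X v]
      simp only [t, tn] at h2
      rw [add_comm]
      exact h2
    · simp only [if_true]
      rw [filter_union, card_union_of_disjoint (hdisj _ (hJ1 X)), filter_union,
        card_union_of_disjoint hdisj1]
      push_cast
      rw [hMt X v, hJ2 X v]
      exact CharTwo.add_self_eq_zero _
  · intro e
    have hJD : ∀ X, J X ⊆ D X := hJ1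
    have hDH : ∀ X, D X ⊆ H := fun X => filter_subset _ _
    by_cases heH : e ∈ H
    · have hM0 : ∀ X, e ∉ MX X := fun X h => by
        obtain ⟨h3, -⟩ := (hMmem X e).1 h
        exact h3 heH
      by_cases heN : e ∈ N
      · have hD0 : ∀ X, e ∉ D X := fun X h => hNA0 e heN _ (mem_filter.1 h).2
        have hX1 : (κ 1 : K) * s (cp (vx ends e false)) ≠ 0 := mul_ne_zero (κ 1).2 (hs _)
        have h1 : ∀ i : {X : K // X ≠ 0} × Bool,
            e ∈ (MX i.1 ∪ NX i.1) ∪ (if i.2 then J i.1 else D i.1 \ J i.1) ↔
            (⟨(κ 1 : K) * s (cp (vx ends e false)), hX1⟩ : {X : K // X ≠ 0}) = i.1 := by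
          rintro ⟨X, b⟩
          rw [mem_union, mem_union]
          have h2 : e ∉ (if b then J X else D X \ J X) := by
            cases b
            · simp only [Bool.false_eq_true, if_false]
              exact fun h => hD0 X (mem_sdiff.1 h).1
            · simp only [if_true]
              exact fun h => hD0 X (hJD X h)
          simp only [h2, hM0 X, false_or, or_false]
          simp only [NX, mem_filter, heN, true_and]
          constructor
          · intro h3
            apply Subtype.ext
            have := hmm1 X (cp (vx ends e false))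
            rw [h3] at this
            exact this
          · intro h3
            apply hmm2
            exact congrArg Subtype.val h3
        rw [Finset.filter_congr fun i _ => h1 i]
        have h2 : (univ.filter fun i : {X : K // X ≠ 0} × Bool =>
            (⟨(κ 1 : K) * s (cp (vx ends e false)), hX1⟩ : {X : K // X ≠ 0}) = i.1) =
            (univ : Finset Bool).image fun b =>
              ((⟨(κ 1 : K) * s (cp (vx ends e false)), hX1⟩ : {X : K // X ≠ 0}), b) := by
          ext ⟨X, b⟩
          simp only [mem_filter, mem_univ, true_and, mem_image, Prod.mk.injEq, exists_eq_right]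
        rw [h2, card_image_of_injective]
        · simp
        · intro b b' h
          exact (Prod.mk.injEq _ _ _ _ ▸ h).2
      · have hN0 : ∀ X, e ∉ NX X := fun X h => heN (mem_filter.1 h).1
        have h1 : ∀ i : {X : K // X ≠ 0} × Bool,
            e ∈ (MX i.1 ∪ NX i.1) ∪ (if i.2 then J i.1 else D i.1 \ J i.1) ↔
            (e ∈ D i.1 ∧ ((e ∈ J i.1) ↔ i.2 = true)) := by
          rintro ⟨X, b⟩
          rw [mem_union, mem_union]
          have h2 := hM0 X
          have h3 := hN0 X
          cases b
          · simp [h2, h3]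
          · simp only [h2, h3, if_true, false_or, iff_true]
            exact ⟨fun h => ⟨hJD X h, h⟩, fun h => h.2⟩
        have h2 : (univ.filter fun i : {X : K // X ≠ 0} × Bool =>
            e ∈ (MX i.1 ∪ NX i.1) ∪ (if i.2 then J i.1 else D i.1 \ J i.1)).card =
            (univ.filter fun X : {X : K // X ≠ 0} => e ∈ D X).card := by
          rw [Finset.filter_congr fun i _ => h1 i]
          apply Finset.card_bij (fun i _ => i.1)
          · intro i hi
            rw [mem_filter] at hi ⊢
            exact ⟨mem_univ _, hi.2.1⟩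
          · rintro ⟨X, b⟩ hi ⟨X', b'⟩ hi' hXX
            rw [mem_filter] at hi hi'
            simp only at hXX hi hi'
            subst hXX
            have : b = b' := by
              have h3 := hi.2.2.symm.trans hi'.2.2
              cases b <;> cases b' <;> simp_all
            rw [this]
          · intro X hX
            rw [mem_filter] at hX
            refine ⟨(X, decide (e ∈ J X)), ?_, rfl⟩
            rw [mem_filter]
            exact ⟨mem_univ _, hX.2, by simp⟩
        rw [h2]
        have h3 := hcov e heH
        rw [if_neg heN] at h3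
        rw [← h3]
        apply Finset.card_bij (fun X _ => mm X (cp (vx ends e false)))
        · intro X hX
          rw [mem_filter] at hX ⊢
          exact ⟨mem_univ _, (mem_filter.1 hX.2).2⟩
        · intro X _ X' _ hXX
          apply Subtype.ext
          rw [← hmm1 X (cp (vx ends e false)), ← hmm1 X' (cp (vx ends e false)), hXX]
        · intro m hm
          rw [mem_filter] at hm
          have h5 : (κ m : K) * s (cp (vx ends e false)) ≠ 0 := mul_ne_zero (κ m).2 (hs _)
          have h6 : mm ⟨_, h5⟩ (cp (vx ends e false)) = m := hmm2 ⟨_, h5⟩ _ m rfl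
          refine ⟨⟨_, h5⟩, ?_, h6⟩
          rw [mem_filter]
          refine ⟨mem_univ _, ?_⟩
          simp only [D, mem_filter]
          exact ⟨heH, by rw [h6]; exact hm.2⟩
    · have h1 : ∀ i : {X : K // X ≠ 0} × Bool,
          e ∈ (MX i.1 ∪ NX i.1) ∪ (if i.2 then J i.1 else D i.1 \ J i.1) ↔
          (⟨f ⟨e, heH⟩, hf _⟩ : {X : K // X ≠ 0}) = i.1 := by
        rintro ⟨X, b⟩
        rw [mem_union, mem_union, hMmem]
        constructor
        · rintro ((⟨h2, h3⟩ | h2) | h2)
          · exact Subtype.ext h3
          · exfalso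
            apply heH
            simp only [NX, mem_filter] at h2
            exact hN h2.1
          · exfalso
            apply heH
            cases b
            · simp only [Bool.false_eq_true, if_false] at h2
              exact hDH X (mem_sdiff.1 h2).1
            · simp only [if_true] at h2
              exact hDH X (hJD X h2)
        · intro h
          exact Or.inl (Or.inl ⟨heH, congrArg Subtype.val h⟩)
      rw [Finset.filter_congr fun i _ => h1 i]
      have h2 : (univ.filter fun i : {X : K // X ≠ 0} × Bool =>
          (⟨f ⟨e, heH⟩, hf _⟩ : {X : K // X ≠ 0}) = i.1) =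
          (univ : Finset Bool).image fun b => ((⟨f ⟨e, heH⟩, hf _⟩ : {X : K // X ≠ 0}), b) := by
        ext ⟨X, b⟩
        simp only [mem_filter, mem_univ, true_and, mem_image, Prod.mk.injEq, exists_eq_right]
      rw [h2, card_image_of_injective]
      · simp
      · intro b b' h
        exact (Prod.mk.injEq _ _ _ _ ▸ h).2

end Pool.Agent.Helper998.Kotz
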