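import Pool.Agent.Helper998.Kotz.CoreC
set_option autoImplicit false
open Finset

namespace Pool.Agent.Helper998.Kotz

open scoped Classical

variable {V E : Type} [Fintype V] [Fintype E]

/-- colouring c is valid at v -/
def VC (ends : E → Sym2 V) (H : Finset E) (c : E → ZMod 3) (v : V) : Prop :=
  ((H.filter fun e => v ∈ ends e).card = 2 ∧
    ∀ e ∈ H, ∀ f ∈ H, v ∈ ends e → v ∈ ends f → c e = c f) ∨
  ((H.filter fun e => v ∈ ends e).card = 3 ∧
    ∀ e ∈ H, ∀ f ∈ H, v ∈ ends e → v ∈ ends f → c e = c f → e = f)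

omit [Fintype V] [Fintype E] in
theorem surj3 (ends : E → Sym2 V) (H : Finset E) (c : E → ZMod 3) (v : V)
    (h2 : (H.filter fun e => v ∈ ends e).card = 3)
    (h3 : ∀ e ∈ H, ∀ f ∈ H, v ∈ ends e → v ∈ ends f → c e = c f → e = f) (m : ZMod 3) :
    ∃ e ∈ H, v ∈ ends e ∧ c e = m := by
  have hinj : Set.InjOn c (H.filter fun e => v ∈ ends e : Finset E) := by
    intro e he f' hf' hef
    rw [mem_coe, mem_filter] at he hf'
    exact h3 e he.1 f' hf'.1 he.2 hf'.2 hef
  have himg : (H.filter fun e => v ∈ ends e).image c = univ := by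
    apply eq_univ_of_card
    rw [card_image_of_injOn hinj, h2]
    rfl
  have hm' : m ∈ (H.filter fun e => v ∈ ends e).image c := by rw [himg]; simp
  obtain ⟨e0, he0, he1⟩ := mem_image.1 hm'
  rw [mem_filter] at he0
  exact ⟨e0, he0.1, he0.2, he1⟩

omit [Fintype V] [Fintype E] in
theorem evlem (ends : E → Sym2 V) (H : Finset E) (c : E → ZMod 3) (v : V)
    (hv : VC ends H c v) (m : ZMod 3) :
    Even ((H.filter fun e => c e ≠ m).filter fun e => v ∈ ends e).card := by
  rw [filter_filter]
  rcases hv with ⟨h2, h3⟩ | ⟨h2, h3⟩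
  · have hpos : 0 < (H.filter fun e => v ∈ ends e).card := by omega
    obtain ⟨e0, he0⟩ := card_pos.1 hpos
    rw [mem_filter] at he0
    by_cases h4 : c e0 = m
    · have : (H.filter fun e => c e ≠ m ∧ v ∈ ends e) = ∅ := by
        rw [filter_eq_empty_iff]
        rintro e he ⟨h5, h6⟩
        exact h5 ((h3 e he e0 he0.1 h6 he0.2).trans h4)
      rw [this]; simp
    · have : (H.filter fun e => c e ≠ m ∧ v ∈ ends e) = (H.filter fun e => v ∈ ends e) := by
        apply filter_congr
        intro e he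
        constructor
        · exact fun h => h.2
        · intro h
          exact ⟨by rw [h3 e he e0 he0.1 h he0.2]; exact h4, h⟩
      rw [this, h2]; decide
  · obtain ⟨e0, he0, he1, he2⟩ := surj3 ends H c v h2 h3 m
    have : (H.filter fun e => c e ≠ m ∧ v ∈ ends e) = (H.filter fun e => v ∈ ends e).erase e0 := by
      ext e
      rw [mem_filter, mem_erase, mem_filter]
      constructor
      · rintro ⟨h5, h6, h7⟩
        refine ⟨?_, h5, h7⟩
        rintro rfl
        exact h6 he2
      · rintro ⟨h5, h6, h7⟩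
        exact ⟨h6, fun h8 => h5 (h3 e h6 e0 he0 h7 he1 (h8.trans he2.symm)), h7⟩
    rw [this, card_erase_of_mem (mem_filter.2 ⟨he0, he1⟩), h2]; decide

/-- v is an attachment vertex (H-degree 2) on an edge of colour k -/
def Att (ends : E → Sym2 V) (H : Finset E) (col : E → ZMod 3) (k : ZMod 3) (v : V) : Prop :=
  (H.filter fun e => v ∈ ends e).card = 2 ∧ ∃ e ∈ H, v ∈ ends e ∧ col e = k

/-- the circuit of F through v carries attachments of both colours -/
def Bi (ends : E → Sym2 V) (H : Finset E) (col : E → ZMod 3) (v : V) : Prop :=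
  ∃ x y, (RG ends (H.filter fun e => col e ≠ 0)).Reachable v x ∧
    (RG ends (H.filter fun e => col e ≠ 0)).Reachable v y ∧
    Att ends H col 1 x ∧ Att ends H col 2 y

theorem coreD {K : Type} [Field K] [Fintype K] (hK : Fintype.card K = 4) [CharP K 2]
    (ends : E → Sym2 V) (hl : ∀ e, ¬ (ends e).IsDiag)
    (hcub : ∀ v : V, (univ.filter fun e => v ∈ ends e).card = 3)
    (H : Finset E) (col : E → ZMod 3)
    (hV : ∀ v, VC ends H col v)
    (hS : ∀ c' : E → ZMod 3, (∀ v, VC ends H c' v) → (∀ e ∈ H, c' e = 0 ↔ col e = 0) →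
      ∀ μ : ZMod 3, μ ≠ 0 → ∀ v w, (RG ends H).Reachable v w →
      (∃ e ∈ H, v ∈ ends e ∧ (c' e = 0 ∨ c' e = μ)) → (∃ e ∈ H, w ∈ ends e ∧ (c' e = 0 ∨ c' e = μ)) →
      (RG ends (H.filter fun e => c' e = 0 ∨ c' e = μ)).Reachable v w)
    (hB : ∀ v w, (RG ends H).Reachable v w → Bi ends H col v → Bi ends H col w →
      (RG ends (H.filter fun e => col e ≠ 0)).Reachable v w)
    (hpar : ∀ C : (RG ends H).ConnectedComponent, Even (univ.filter fun d : {e // e ∉ H} × Bool =>
      (RG ends H).connectedComponentMk (vx ends d.1 d.2) = C).card) :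
    ∃ S : {X : K // X ≠ 0} × Bool → Finset E,
      (∀ i v, Even ((S i).filter fun e => v ∈ ends e).card) ∧
      ∀ e, (univ.filter fun i => e ∈ S i).card = 2 := by
  let Sp : V → Prop := Bi ends H col
  let Sw : V → Prop := fun v => ¬ Sp v ∧
    ∃ y, (RG ends (H.filter fun e => col e ≠ 0)).Reachable v y ∧ Att ends H col 2 y
  have hSpr : ∀ v w, (RG ends (H.filter fun e => col e ≠ 0)).Reachable v w → Sp v → Sp w := by
    rintro v w h ⟨x, y, h1, h2, h3, h4⟩
    exact ⟨x, y, h.symm.trans h1, h.symm.trans h2, h3, h4⟩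
  have hSwr : ∀ v w, (RG ends (H.filter fun e => col e ≠ 0)).Reachable v w → Sw v → Sw w := by
    rintro v w h ⟨h1, y, h2, h3⟩
    exact ⟨fun h4 => h1 (hSpr w v h.symm h4), y, h.symm.trans h2, h3⟩
  have hFe : ∀ e ∈ H, col e ≠ 0 → ∀ v ∈ ends e,
      (RG ends (H.filter fun e => col e ≠ 0)).Reachable (vx ends e false) v := by
    intro e he hc v hv
    exact RG_edge ends _ e (mem_filter.2 ⟨he, hc⟩) (vx_mem ends e false) hv
  have hSpe : ∀ e ∈ H, col e ≠ 0 → ∀ v ∈ ends e, (Sp (vx ends e false) ↔ Sp v) := by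
    intro e he hc v hv
    exact ⟨hSpr _ _ (hFe e he hc v hv), hSpr _ _ (hFe e he hc v hv).symm⟩
  have hSwe : ∀ e ∈ H, col e ≠ 0 → ∀ v ∈ ends e, (Sw (vx ends e false) ↔ Sw v) := by
    intro e he hc v hv
    exact ⟨hSwr _ _ (hFe e he hc v hv), hSwr _ _ (hFe e he hc v hv).symm⟩
  let s1 : V → ZMod 3 := fun v => if Sw v then -1 else 1
  let s2 : V → ZMod 3 := fun v => if Sp v then 1 else - s1 v
  have hs1 : ∀ v, s1 v ≠ 0 := by
    intro v
    simp only [s1]
    split_ifs <;> decide
  have hs2 : ∀ v, s2 v ≠ 0 := by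
    intro v
    simp only [s2]
    split_ifs
    · decide
    · exact neg_ne_zero.2 (hs1 v)
  let c1 : E → ZMod 3 := fun e => s1 (vx ends e false) * col e
  let c2 : E → ZMod 3 := fun e => s2 (vx ends e false) * col e
  have hc1 : ∀ e ∈ H, ∀ v ∈ ends e, c1 e = s1 v * col e := by
    intro e he v hv
    by_cases hc : col e = 0
    · simp only [c1, hc, mul_zero]
    · simp only [c1, s1, hSwe e he hc v hv]
  have hc2 : ∀ e ∈ H, ∀ v ∈ ends e, c2 e = s2 v * col e := by
    intro e he v hv
    by_cases hc : col e = 0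
    · simp only [c2, hc, mul_zero]
    · simp only [c2, s2, s1, hSwe e he hc v hv, hSpe e he hc v hv]
  have hval : ∀ (c : E → ZMod 3) (s : V → ZMod 3), (∀ v, s v ≠ 0) →
      (∀ e ∈ H, ∀ v ∈ ends e, c e = s v * col e) → ∀ v, VC ends H c v := by
    intro c s hs hc v
    rcases hV v with ⟨h2, h3⟩ | ⟨h2, h3⟩
    · left
      refine ⟨h2, fun e he f hf hve hvf => ?_⟩
      rw [hc e he v hve, hc f hf v hvf, h3 e he f hf hve hvf]
    · right
      refine ⟨h2, fun e he f hf hve hvf h4 => ?_⟩
      rw [hc e he v hve, hc f hf v hvf] at h4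
      exact h3 e he f hf hve hvf (mul_left_cancel₀ (hs v) h4)
  have hV1 := hval c1 s1 hs1 hc1
  have hV2 := hval c2 s2 hs2 hc2
  have hz1 : ∀ e ∈ H, c1 e = 0 ↔ col e = 0 := by
    intro e he
    rw [hc1 e he _ (vx_mem ends e false), mul_eq_zero]
    simp [hs1]
  have hz2 : ∀ e ∈ H, c2 e = 0 ↔ col e = 0 := by
    intro e he
    rw [hc2 e he _ (vx_mem ends e false), mul_eq_zero]
    simp [hs2]
  let A : ZMod 3 → Finset E := fun m =>
    if m = 0 then H.filter fun e => col e ≠ 0 ∧ Sp (vx ends e false)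
    else if m = 1 then H.filter fun e => c2 e ≠ 1 else H.filter fun e => c1 e ≠ 2
  let N : Finset E := H.filter fun e => col e ≠ 0 ∧ ¬ Sp (vx ends e false) ∧ c1 e = 2
  have hA0 : A 0 = H.filter fun e => col e ≠ 0 ∧ Sp (vx ends e false) := if_pos rfl
  have hA1 : A 1 = H.filter fun e => c2 e ≠ 1 := by
    change (if (1 : ZMod 3) = 0 then _ else if (1 : ZMod 3) = 1 then _ else _) = _
    rw [if_neg (by decide), if_pos rfl]
  have hA2 : A 2 = H.filter fun e => c1 e ≠ 2 := by
    change (if (2 : ZMod 3) = 0 then _ else if (2 : ZMod 3) = 1 then _ else _) = _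
    rw [if_neg (by decide), if_neg (by decide)]
  have hA : ∀ m, A m ⊆ H := by
    intro m
    simp only [A]
    split_ifs <;> exact filter_subset _ _
  have h3c : ∀ m : ZMod 3, m = 0 ∨ m = 1 ∨ m = 2 := by decide
  have hex : ∀ v, ∃ e, e ∈ H ∧ v ∈ ends e := by
    intro v
    have hpos : 0 < (H.filter fun e => v ∈ ends e).card := by
      rcases hV v with h | h <;> have := h.1 <;> omega
    obtain ⟨e, he⟩ := card_pos.1 hpos
    rw [mem_filter] at he
    exact ⟨e, he⟩
  choose ed hed1 hed2 using hex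
  -- key fact at attachments off the bichromatic circuits
  have hkey : ∀ v, (H.filter fun e => v ∈ ends e).card = 2 → ¬ Sp v → ∀ e ∈ H, v ∈ ends e →
      col e ≠ 0 → c1 e = 1 := by
    intro v hd hsp e he hv hc
    rw [hc1 e he v hv]
    rcases h3c (col e) with h | h | h
    · exact absurd h hc
    · have hns : ¬ Sw v := by
        rintro ⟨-, y, h1, h2⟩
        exact hsp ⟨v, y, SimpleGraph.Reachable.refl _, h1, ⟨hd, e, he, hv, h⟩, h2⟩
      simp only [s1, if_neg hns, h]
      decide
    · have hns : Sw v := ⟨hsp, v, SimpleGraph.Reachable.refl _, hd, e, he, hv, h⟩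
      simp only [s1, if_pos hns, h]
      decide
  let kk : V → ZMod 3 := fun v => if Sp v then col (ed v) else 0
  apply coreC hK ends hl H A N kk hA (filter_subset _ _) _ _ _ _ _ hpar
  · -- hcov
    intro e he
    have hu : (univ : Finset (ZMod 3)) = {0, 1, 2} := by decide
    rw [hu, filter_insert, filter_insert, filter_singleton]
    have m0 : e ∈ A 0 ↔ col e ≠ 0 ∧ Sp (vx ends e false) := by rw [hA0, mem_filter]; simp [he]
    have m1 : e ∈ A 1 ↔ c2 e ≠ 1 := by rw [hA1, mem_filter]; simp [he]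
    have m2 : e ∈ A 2 ↔ c1 e ≠ 2 := by rw [hA2, mem_filter]; simp [he]
    have mN : e ∈ N ↔ col e ≠ 0 ∧ ¬ Sp (vx ends e false) ∧ c1 e = 2 := by
      simp only [N, mem_filter, he, true_and]
    by_cases hsp : Sp (vx ends e false)
    · have hsw : ¬ Sw (vx ends e false) := fun h => h.1 hsp
      have e1 : c1 e = col e := by simp only [c1, s1, if_neg hsw, one_mul]
      have e2 : c2 e = col e := by simp only [c2, s2, if_pos hsp, one_mul]
      rcases h3c (col e) with h | h | h <;> simp only [m0, m1, m2, mN, e1, e2, h, hsp] <;> decide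
    · have e2 : c2 e = - c1 e := by simp only [c2, s2, c1, if_neg hsp, neg_mul]
      rcases h3c (c1 e) with h | h | h
      · have h0 : col e = 0 := (hz1 e he).1 h
        simp only [m0, m1, m2, mN, e2, h, hsp, h0]; decide
      · have h0 : (col e ≠ 0) = True :=
          eq_true fun h1 => by rw [(hz1 e he).2 h1] at h; exact absurd h (by decide)
        simp only [m0, m1, m2, mN, e2, h, hsp, h0]; decide
      · have h0 : (col e ≠ 0) = True :=
          eq_true fun h1 => by rw [(hz1 e he).2 h1] at h; exact absurd h (by decide)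
        simp only [m0, m1, m2, mN, e2, h, hsp, h0]; decide
  · -- hev
    intro m v
    rcases h3c m with h | h | h
    · subst h
      rw [hA0]
      by_cases hsp : Sp v
      · have : ((H.filter fun e => col e ≠ 0 ∧ Sp (vx ends e false)).filter fun e => v ∈ ends e) =
            ((H.filter fun e => col e ≠ 0).filter fun e => v ∈ ends e) := by
          ext e
          simp only [mem_filter]
          constructor
          · rintro ⟨⟨h1, h2, -⟩, h3⟩
            exact ⟨⟨h1, h2⟩, h3⟩
          · rintro ⟨⟨h1, h2⟩, h3⟩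
            exact ⟨⟨h1, h2, (hSpe e h1 h2 v h3).2 hsp⟩, h3⟩
        rw [this]
        exact evlem ends H col v (hV v) 0
      · have : ((H.filter fun e => col e ≠ 0 ∧ Sp (vx ends e false)).filter fun e => v ∈ ends e) = ∅ := by
          rw [filter_eq_empty_iff]
          intro e he h3
          rw [mem_filter] at he
          exact hsp ((hSpe e he.1 he.2.1 v h3).1 he.2.2)
        rw [this]; simp
    · subst h; rw [hA1]; exact evlem ends H c2 v (hV2 v) 1
    · subst h; rw [hA2]; exact evlem ends H c1 v (hV1 v) 2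
  · -- hcon
    rintro m v w hvw ⟨e, he, hve⟩ ⟨e', he', hwe⟩
    rcases h3c m with h | h | h
    · subst h
      rw [hA0] at he he' ⊢
      rw [mem_filter] at he he'
      have h1 := hB v w hvw ((hSpe e he.1 he.2.1 v hve).1 he.2.2)
        ((hSpe e' he'.1 he'.2.1 w hwe).1 he'.2.2)
      have hspv : Sp v := (hSpe e he.1 he.2.1 v hve).1 he.2.2
      rw [SimpleGraph.reachable_iff_reflTransGen] at h1
      have h2 : ∀ z, Relation.ReflTransGen (RG ends (H.filter fun e => col e ≠ 0)).Adj v z →
          (RG ends (H.filter fun e => col e ≠ 0 ∧ Sp (vx ends e false))).Reachable v z ∧ Sp z := by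
        intro z hz
        induction hz with
        | refl => exact ⟨SimpleGraph.Reachable.refl _, hspv⟩
        | @tail b c _ hab ih =>
          have hab' := hab
          rw [RG_adj] at hab
          obtain ⟨hbc, f', hf', hf''⟩ := hab
          rw [mem_filter] at hf'
          have hb : b ∈ ends f' := by rw [hf'']; exact Sym2.mem_mk_left _ _
          have hc : c ∈ ends f' := by rw [hf'']; exact Sym2.mem_mk_right _ _
          have hfD : f' ∈ H.filter fun e => col e ≠ 0 ∧ Sp (vx ends e false) := by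
            rw [mem_filter]
            exact ⟨hf'.1, hf'.2, (hSpe f' hf'.1 hf'.2 b hb).2 ih.2⟩
          exact ⟨ih.1.trans (RG_edge ends _ f' hfD hb hc), hSpr b c hab'.reachable ih.2⟩
      exact (h2 w h1).1
    · subst h
      rw [hA1] at he he' ⊢
      rw [mem_filter] at he he'
      have hq : ∀ a : ZMod 3, a ≠ 1 ↔ (a = 0 ∨ a = 2) := by decide
      have h1 := hS c2 hV2 hz2 2 (by decide) v w hvw ⟨e, he.1, hve, (hq _).1 he.2⟩
        ⟨e', he'.1, hwe, (hq _).1 he'.2⟩
      have h2 : (H.filter fun e => c2 e ≠ 1) = H.filter fun e => c2 e = 0 ∨ c2 e = 2 :=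
        filter_congr fun e _ => hq _
      rw [h2]
      exact h1
    · subst h
      rw [hA2] at he he' ⊢
      rw [mem_filter] at he he'
      have hq : ∀ a : ZMod 3, a ≠ 2 ↔ (a = 0 ∨ a = 1) := by decide
      have h1 := hS c1 hV1 hz1 1 (by decide) v w hvw ⟨e, he.1, hve, (hq _).1 he.2⟩
        ⟨e', he'.1, hwe, (hq _).1 he'.2⟩
      have h2 : (H.filter fun e => c1 e ≠ 2) = H.filter fun e => c1 e = 0 ∨ c1 e = 1 :=
        filter_congr fun e _ => hq _
      rw [h2]
      exact h1
  · -- hatt
    intro e he v hv m hm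
    have hd2 : (H.filter fun e => v ∈ ends e).card = 2 := by
      rcases hV v with h | h
      · exact h.1
      · exfalso
        have h1 : (insert e (H.filter fun e => v ∈ ends e)).card ≤ (univ.filter fun e => v ∈ ends e).card := by
          apply card_le_card
          intro x hx
          rw [mem_insert] at hx
          rw [mem_filter]
          rcases hx with rfl | hx
          · exact ⟨mem_univ _, hv⟩
          · exact ⟨mem_univ _, (mem_filter.1 hx).2⟩
        rw [card_insert_of_notMem (fun h2 => he (mem_filter.1 h2).1), hcub v, h.1] at h1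
        omega
    refine ⟨ed v, ?_, hed2 v⟩
    have hH := hed1 v
    have hvv := hed2 v
    have m0 : ed v ∈ A 0 ↔ col (ed v) ≠ 0 ∧ Sp (vx ends (ed v) false) := by
      rw [hA0, mem_filter]; simp [hH]
    have m1 : ed v ∈ A 1 ↔ c2 (ed v) ≠ 1 := by rw [hA1, mem_filter]; simp [hH]
    have m2 : ed v ∈ A 2 ↔ c1 (ed v) ≠ 2 := by rw [hA2, mem_filter]; simp [hH]
    by_cases hsp : Sp v
    · have hk : kk v = col (ed v) := if_pos hsp
      rw [hk] at hm
      have hsw : ¬ Sw v := fun h => h.1 hsp
      have e1 : c1 (ed v) = col (ed v) := by rw [hc1 _ hH v hvv]; simp only [s1, if_neg hsw, one_mul]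
      have e2 : c2 (ed v) = col (ed v) := by rw [hc2 _ hH v hvv]; simp only [s2, if_pos hsp, one_mul]
      rcases h3c m with h | h | h
      · subst h
        rw [m0]
        exact ⟨fun h => hm h.symm, (hSpe _ hH (fun h => hm h.symm) v hvv).2 hsp⟩
      · subst h
        rw [m1, e2]
        exact fun h => hm h.symm
      · subst h
        rw [m2, e1]
        exact fun h => hm h.symm
    · have hk : kk v = 0 := if_neg hsp
      rw [hk] at hm
      have e2 : c2 (ed v) = - c1 (ed v) := by
        rw [hc2 _ hH v hvv, hc1 _ hH v hvv]; simp only [s2, if_neg hsp, neg_mul]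
      by_cases hc : col (ed v) = 0
      · have h1 : c1 (ed v) = 0 := (hz1 _ hH).2 hc
        rcases h3c m with h | h | h
        · exact absurd h hm
        · subst h; rw [m1, e2, h1]; decide
        · subst h; rw [m2, h1]; decide
      · have h1 : c1 (ed v) = 1 := hkey v hd2 hsp _ hH hvv hc
        rcases h3c m with h | h | h
        · exact absurd h hm
        · subst h; rw [m1, e2, h1]; decide
        · subst h; rw [m2, h1]; decide
  · -- hNA
    intro e he v hv
    simp only [N, mem_filter] at he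
    obtain ⟨heH, hc, hsp, hc2'⟩ := he
    rcases hV v with ⟨h2, h3⟩ | ⟨h2, h3⟩
    · exfalso
      have h4 := hkey v h2 (fun h => hsp ((hSpe e heH hc v hv).2 h)) e heH hv hc
      rw [h4] at hc2'
      exact absurd hc2' (by decide)
    · obtain ⟨e0, he0, he1, he2⟩ := surj3 ends H col v h2 h3 0
      refine ⟨e0, ?_, he1⟩
      rw [hA1, mem_filter]
      refine ⟨he0, ?_⟩
      rw [(hz2 e0 he0).2 he2]
      decide

end Pool.Agent.Helper998.Kotz
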