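import Pool.Agent.Helper998.Kotz.Alg
set_option autoImplicit false
open Finset

namespace Pool.Agent.Helper998.Kotz



/-- boundary of an edge function mod 2 -/
def bd267 {V E : Type} [Fintype E] [DecidableEq V] (ends : E → Sym2 V) (J : E → ZMod 2) (x : V) :
    ZMod 2 := ∑ e, if x ∈ ends e then J e else 0

theorem bd267_add {V E : Type} [Fintype E] [DecidableEq V] (ends : E → Sym2 V)
    (J J' : E → ZMod 2) (x : V) :
    bd267 ends (fun e => J e + J' e) x = bd267 ends J x + bd267 ends J' x := by
  unfold bd267
  rw [← Finset.sum_add_distrib]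
  refine Finset.sum_congr rfl fun e _ => ?_
  split_ifs <;> simp

theorem zmod2_cases (a : ZMod 2) : a = 0 ∨ a = 1 := by
  revert a; decide

theorem reach267 {V E : Type} [Fintype V] [DecidableEq V] [Fintype E] [DecidableEq E]
    (ends : E → Sym2 V) (D : Finset E) {v w : V}
    (p : (SimpleGraph.fromRel fun a b : V => ∃ f ∈ D, ends f = s(a, b)).Walk v w) :
    ∃ J : E → ZMod 2, (∀ e, e ∉ D → J e = 0) ∧
      ∀ x, bd267 ends J x = (if x = v then 1 else 0) + (if x = w then 1 else 0) := by
  induction p with
  | nil =>
    rename_i u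
    refine ⟨fun _ => 0, fun _ _ => rfl, fun x => ?_⟩
    have h : bd267 ends (fun _ : E => (0 : ZMod 2)) x = 0 := by
      unfold bd267
      simp
    rw [h]
    by_cases hx : x = u
    · simp only [hx, if_true]; decide
    · simp [hx]
  | cons h p ih =>
    rename_i a b c
    obtain ⟨J, hJ, hb⟩ := ih
    have hadj := h
    rw [SimpleGraph.fromRel_adj] at hadj
    obtain ⟨hne, hor⟩ := hadj
    have hf : ∃ f ∈ D, ends f = s(a, b) := by
      rcases hor with h1 | h1
      · exact h1
      · obtain ⟨f, hf, hf2⟩ := h1
        exact ⟨f, hf, by rw [hf2, Sym2.eq_swap]⟩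
    obtain ⟨f, hfD, hfe⟩ := hf
    refine ⟨fun e => J e + (if e = f then 1 else 0), ?_, ?_⟩
    · intro e he
      have : e ≠ f := fun h => he (h ▸ hfD)
      simp [hJ e he, this]
    · intro x
      rw [bd267_add, hb x]
      have h1 : bd267 ends (fun e => if e = f then (1 : ZMod 2) else 0) x
          = if x ∈ ends f then 1 else 0 := by
        unfold bd267
        rw [Finset.sum_eq_single f]
        · simp
        · intro e _ he
          simp [he]
        · intro hf; exact absurd (Finset.mem_univ f) hf
      rw [h1, hfe]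
      have two : (1 : ZMod 2) + 1 = 0 := by decide
      by_cases hxa : x = a
      · have hxb : x ≠ b := by rw [hxa]; exact hne
        simp only [Sym2.mem_iff, hxa, true_or, if_true]
        have : a ≠ b := hne
        simp only [this, if_false]
        ring
      · by_cases hxb : x = b
        · simp only [Sym2.mem_iff, hxb, or_true, if_true]
          have : ¬ b = a := fun h => hne h.symm
          simp only [this, if_false]
          have h3 : ∀ y : ZMod 2, 1 + y + 1 = 0 + y := by decide
          exact h3 _
        · simp only [Sym2.mem_iff, hxa, hxb, or_self, if_false]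
          ring

section graph
variable {V E : Type} [Fintype V] [DecidableEq V] [Fintype E] [DecidableEq E]

/-- T-joins: D a set of edges, t a 0/1 vertex function (mod 2) whose sum over every connected
component of the graph with edge set D vanishes; then there is J ⊆ D with boundary t. -/
theorem tjoin (ends : E → Sym2 V) (hl : ∀ e, ¬ (ends e).IsDiag) (D : Finset E) (t : V → ZMod 2)
    (ht : ∀ u : V, ∑ v ∈ univ.filter (fun v =>
      (SimpleGraph.fromRel fun a b : V => ∃ f ∈ D, ends f = s(a, b)).Reachable u v), t v = 0) :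
    ∃ J ⊆ D, ∀ v, (((J.filter fun e => v ∈ ends e).card : ℕ) : ZMod 2) = t v := by
  classical
  set G := (SimpleGraph.fromRel fun a b : V => ∃ f ∈ D, ends f = s(a, b)) with hG
  let r : V → V := fun v => (G.connectedComponentMk v).out
  have hr : ∀ v, G.connectedComponentMk (r v) = G.connectedComponentMk v := fun v =>
    Quot.out_eq (G.connectedComponentMk v)
  have hreach : ∀ v, G.Reachable v (r v) := fun v =>
    SimpleGraph.ConnectedComponent.exact (hr v).symm
  have hJ : ∀ v, ∃ J : E → ZMod 2, (∀ e, e ∉ D → J e = 0) ∧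
      ∀ x, bd267 ends J x = (if x = v then 1 else 0) + (if x = r v then 1 else 0) := by
    intro v
    obtain ⟨p⟩ := hreach v
    exact reach267 ends D p
  choose Jv hJ0 hJb using hJ
  let J : E → ZMod 2 := fun e => ∑ v, t v * Jv v e
  have hJD : ∀ e, e ∉ D → J e = 0 := by
    intro e he
    exact Finset.sum_eq_zero fun v _ => by rw [hJ0 v e he, mul_zero]
  have hbd : ∀ x, bd267 ends J x = t x := by
    intro x
    have h1 : bd267 ends J x = ∑ v, t v * bd267 ends (Jv v) x := by
      unfold bd267
      simp only [Finset.mul_sum]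
      rw [Finset.sum_comm]
      refine Finset.sum_congr rfl fun e _ => ?_
      split_ifs with h
      · rfl
      · simp
    rw [h1]
    simp only [hJb, mul_add, Finset.sum_add_distrib]
    have h2 : ∑ v, t v * (if x = v then (1 : ZMod 2) else 0) = t x := by
      simp
    have h3 : ∑ v, t v * (if x = r v then (1 : ZMod 2) else 0) = 0 := by
      by_cases hx : ∃ v0, r v0 = x
      · obtain ⟨v0, hv0⟩ := hx
        have hsum := ht x
        rw [Finset.sum_filter] at hsum
        refine Eq.trans (Finset.sum_congr rfl fun v _ => ?_) hsum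
        have hiff : x = r v ↔ G.Reachable x v := by
          constructor
          · intro h
            rw [h]
            exact (hreach v).symm
          · intro h
            have h4 : G.connectedComponentMk v = G.connectedComponentMk v0 := by
              have h5 : G.connectedComponentMk x = G.connectedComponentMk v :=
                SimpleGraph.ConnectedComponent.sound h
              rw [← h5, ← hv0, hr]
            show x = (G.connectedComponentMk v).out
            rw [h4]
            exact hv0.symm
        by_cases h : x = r v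
        · rw [if_pos h, if_pos (hiff.1 h), mul_one]
        · rw [if_neg h, if_neg (fun h' => h (hiff.2 h')), mul_zero]
      · refine Finset.sum_eq_zero fun v _ => ?_
        have : x ≠ r v := fun h => hx ⟨v, h.symm⟩
        simp [this]
    rw [h2, h3, add_zero]
  refine ⟨D.filter (fun e => J e = 1), Finset.filter_subset _ _, ?_⟩
  intro v
  rw [← hbd v, Finset.card_eq_sum_ones, Nat.cast_sum, Finset.sum_filter, Finset.sum_filter]
  unfold bd267
  rw [← Finset.sum_subset (Finset.subset_univ D)]
  · refine Finset.sum_congr rfl fun e _ => ?_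
    rcases zmod2_cases (J e) with h | h
    · rw [h]; simp
    · rw [h]; simp
  · intro e _ he
    rw [hJD e he]
    simp


end graph


section graph
variable {V E : Type} [Fintype V] [DecidableEq V] [Fintype E] [DecidableEq E]


theorem pc_decomp (ends : E → Sym2 V) : ∀ (n : ℕ) (D : Finset E), D.card = n →
    (∀ v, Even ((D.filter fun e => v ∈ ends e).card)) →
    ∃ L : List (Finset E), (∀ C ∈ L, C.Nonempty ∧
        (∀ v : V, Even (C.filter (fun e => v ∈ ends e)).card) ∧
        ∀ T : Finset E, T ⊆ C → T.Nonempty →
          (∀ v : V, Even (T.filter (fun e => v ∈ ends e)).card) → T = C) ∧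
      ∀ e : E, L.countP (fun C => decide (e ∈ C)) = if e ∈ D then 1 else 0 := by
  intro n
  induction n using Nat.strong_induction_on with
  | _ n ih =>
    intro D hD hev
    by_cases hne : D.Nonempty
    · have hex : (D.powerset.filter fun T => T.Nonempty ∧ 
          ∀ v : V, Even (T.filter (fun e => v ∈ ends e)).card).Nonempty :=
        ⟨D, by simp only [Finset.mem_filter, Finset.mem_powerset]; exact ⟨Finset.Subset.refl _, hne, hev⟩⟩
      obtain ⟨T, hT, hmin⟩ := Finset.exists_min_image _ Finset.card hex
      simp only [Finset.mem_filter, Finset.mem_powerset] at hT hmin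
      obtain ⟨hTD, hTne, hTev⟩ := hT
      have hsd : ∀ v, Even (((D \ T).filter fun e => v ∈ ends e).card) := by
        intro v
        have h1 : (D \ T).filter (fun e => v ∈ ends e) = 
            (D.filter fun e => v ∈ ends e) \ (T.filter fun e => v ∈ ends e) := by
          ext e
          simp only [Finset.mem_filter, Finset.mem_sdiff]
          tauto
        rw [h1, Finset.card_sdiff_of_subset (Finset.filter_subset_filter _ hTD)]
        have h2 : (T.filter fun e => v ∈ ends e).card ≤ (D.filter fun e => v ∈ ends e).card :=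
          Finset.card_le_card (Finset.filter_subset_filter _ hTD)
        exact (Nat.even_sub h2).2 (by simp [hev v, hTev v])
      have hlt : (D \ T).card < n := by
        rw [Finset.card_sdiff_of_subset hTD, ← hD]
        have := hTne.card_pos
        have := Finset.card_le_card hTD
        omega
      obtain ⟨L, hL1, hL2⟩ := ih _ hlt (D \ T) rfl hsd
      refine ⟨T :: L, ?_, ?_⟩
      · intro C hC
        rcases List.mem_cons.1 hC with rfl | hC
        · refine ⟨hTne, hTev, fun T' hT' hne' hev' => ?_⟩
          exact Finset.eq_of_subset_of_card_le hT' (hmin T' ⟨hT'.trans hTD, hne', hev'⟩)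
        · exact hL1 C hC
      · intro e
        rw [List.countP_cons, hL2 e]
        by_cases h1 : e ∈ T
        · have h2 : e ∈ D := hTD h1
          simp [h1, h2]
        · simp [h1]
    · rw [Finset.not_nonempty_iff_eq_empty] at hne
      subst hne
      exact ⟨[], by simp, by simp⟩

theorem pc_countP {α : Type} (p : α → Prop) [DecidablePred p] : ∀ L : List α,
    (univ.filter (fun i : Fin L.length => p (L.get i))).card = L.countP (fun a => decide (p a))
  | [] => by simp
  | a :: L => by
    have ih := pc_countP p L
    rw [List.countP_cons, ← ih]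
    have := Fin.card_filter_univ_succ (n := L.length) (fun i : Fin (L.length + 1) => p ((a :: L).get i))
    refine this.trans ?_
    by_cases h : p a
    · simp [h]
    · simp [h]

theorem partC (ends : E → Sym2 V) (ι : Type) [Fintype ι] (S : ι → Finset E)
    (hev : ∀ i, ∀ v, Even ((S i).filter fun e => v ∈ ends e).card)
    (h2 : ∀ e, (univ.filter fun i => e ∈ S i).card = 2) :
    ∃ (k : ℕ) (C : Fin k → Finset E),
      (∀ i, (C i).Nonempty ∧
        (∀ v : V, Even ((C i).filter (fun e => v ∈ ends e)).card) ∧
        ∀ T : Finset E, T ⊆ C i → T.Nonempty →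
          (∀ v : V, Even (T.filter (fun e => v ∈ ends e)).card) → T = C i) ∧
      ∀ e : E, (univ.filter (fun i => e ∈ C i)).card = 2 := by
  choose L hL1 hL2 using fun i => pc_decomp ends _ (S i) rfl (hev i)
  let LL : List (Finset E) := (univ : Finset ι).toList.flatMap L
  refine ⟨LL.length, LL.get, ?_, ?_⟩
  · intro i
    have hmem : LL.get i ∈ LL := List.get_mem _ _
    obtain ⟨j, _, hj⟩ := List.mem_flatMap.1 hmem
    exact hL1 j _ hj
  · intro e
    rw [pc_countP (fun C : Finset E => e ∈ C) LL]
    show List.countP _ ((univ : Finset ι).toList.flatMap L) = 2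
    rw [List.countP_flatMap]
    have h3 : (List.countP (fun C => decide (e ∈ C)) ∘ L) = fun i => if e ∈ S i then 1 else 0 := by
      funext i
      exact hL2 i e
    rw [h3, Finset.sum_map_toList, ← Finset.card_filter]
    exact h2 e


end graph


section graphB
open scoped Classical

variable {V E : Type} [Fintype V] [Fintype E]

/-- the graph with edge set D -/
abbrev RG (ends : E → Sym2 V) (D : Finset E) : SimpleGraph V :=
  SimpleGraph.fromRel fun a b : V => ∃ f ∈ D, ends f = s(a, b)

omit [Fintype V] [Fintype E] in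
theorem RG_adj (ends : E → Sym2 V) (D : Finset E) (a b : V) :
    (RG ends D).Adj a b ↔ a ≠ b ∧ ∃ f ∈ D, ends f = s(a, b) := by
  unfold RG
  rw [SimpleGraph.fromRel_adj]
  constructor
  · rintro ⟨h1, h2 | ⟨f, h2, h3⟩⟩
    · exact ⟨h1, h2⟩
    · exact ⟨h1, f, h2, by rw [h3, Sym2.eq_swap]⟩
  · rintro ⟨h1, h2⟩
    exact ⟨h1, Or.inl h2⟩

omit [Fintype V] [Fintype E] in
theorem RG_mono (ends : E → Sym2 V) (D D' : Finset E) (h : D ⊆ D') {a b : V}
    (hr : (RG ends D).Reachable a b) : (RG ends D').Reachable a b := by
  apply SimpleGraph.Reachable.mono _ hr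
  intro x y hxy
  rw [RG_adj] at hxy ⊢
  obtain ⟨h1, f, h2, h3⟩ := hxy
  exact ⟨h1, f, h h2, h3⟩

omit [Fintype V] [Fintype E] in
theorem RG_edge (ends : E → Sym2 V) (D : Finset E) (e : E) (he : e ∈ D)
    {a b : V} (ha : a ∈ ends e) (hb : b ∈ ends e) : (RG ends D).Reachable a b := by
  by_cases hab : a = b
  · subst hab; exact SimpleGraph.Reachable.refl _
  · apply SimpleGraph.Adj.reachable
    rw [RG_adj]
    exact ⟨hab, e, he, ((Sym2.mem_and_mem_iff hab).1 ⟨ha, hb⟩)⟩

/-- vertex of the dart (e,i) -/
noncomputable def vx (ends : E → Sym2 V) (e : E) (i : Bool) : V :=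
  if i then (Quot.out (ends e)).2 else (Quot.out (ends e)).1

omit [Fintype V] [Fintype E] in
theorem vx_spec (ends : E → Sym2 V) (e : E) : ends e = s(vx ends e false, vx ends e true) := by
  unfold vx
  simp only [if_true, Bool.false_eq_true, if_false]
  conv_lhs => rw [← Quot.out_eq (ends e)]

omit [Fintype V] [Fintype E] in
theorem vx_mem (ends : E → Sym2 V) (e : E) (i : Bool) : vx ends e i ∈ ends e := by
  rw [vx_spec ends e]
  cases i
  · exact Sym2.mem_mk_left _ _
  · exact Sym2.mem_mk_right _ _

omit [Fintype V] [Fintype E] in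
theorem vx_ne (ends : E → Sym2 V) (hl : ∀ e, ¬ (ends e).IsDiag) (e : E) :
    vx ends e false ≠ vx ends e true := by
  intro h
  apply hl e
  rw [vx_spec ends e, h]
  exact Sym2.mk_isDiag_iff.2 rfl

omit [Fintype V] [Fintype E] in
/-- for a loopless edge e the number of darts at v is 1 if v is an end and 0 otherwise -/
theorem card_darts (ends : E → Sym2 V) (hl : ∀ e, ¬ (ends e).IsDiag) (e : E) (v : V) :
    (univ.filter fun i : Bool => vx ends e i = v).card = if v ∈ ends e then 1 else 0 := by
  have h1 : v ∈ ends e ↔ v = vx ends e false ∨ v = vx ends e true := by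
    conv_lhs => rw [vx_spec ends e]
    exact Sym2.mem_iff
  have h2 := vx_ne ends hl e
  rw [Finset.card_filter, Fintype.sum_bool]
  by_cases ha : vx ends e true = v
  · have hb : vx ends e false ≠ v := fun h => h2 (h.trans ha.symm)
    rw [if_pos ha, if_neg hb, if_pos (h1.2 (Or.inr ha.symm))]
  · by_cases hb : vx ends e false = v
    · rw [if_neg ha, if_pos hb, if_pos (h1.2 (Or.inl hb.symm))]
    · rw [if_neg ha, if_neg hb, if_neg]
      rw [h1]
      rintro (h | h)
      · exact hb h.symm
      · exact ha h.symm



theorem exists_sol' {K : Type} [Field K] [Fintype K] (hK : Fintype.card K = 4) [CharP K 2]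
    {V E : Type} [Fintype V] [Fintype E] (en : E × Bool → V) (c : E × Bool → K)
    (hd : ∀ v, Even (univ.filter fun d : E × Bool => en d = v).card) :
    ∃ (s : V → K) (f : E → K), (∀ v, s v ≠ 0) ∧ (∀ e, f e ≠ 0) ∧
      (∀ d : E × Bool, f d.1 ≠ c d * s (en d)) ∧
      ∀ g : K, g ≠ 0 → ∀ v, Even (univ.filter fun d : E × Bool => en d = v ∧ f d.1 = g).card := by
  classical
  obtain ⟨s, f, h1, h2, h3, h4⟩ := exists_sol hK en c (fun v => by convert hd v)
  exact ⟨s, f, h1, h2, h3, fun g hg v => by convert h4 g hg v⟩

theorem tjoin' (ends : E → Sym2 V) (hl : ∀ e, ¬ (ends e).IsDiag) (D : Finset E) (t : V → ZMod 2)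
    (ht : ∀ u : V, ∑ v ∈ univ.filter (fun v => (RG ends D).Reachable u v), t v = 0) :
    ∃ J ⊆ D, ∀ v, (((J.filter fun e => v ∈ ends e).card : ℕ) : ZMod 2) = t v := by
  classical
  obtain ⟨J, h1, h2⟩ := tjoin ends hl D t (fun u => by convert ht u)
  exact ⟨J, h1, fun v => by convert h2 v⟩

theorem coreB {K : Type} [Field K] [Fintype K] (hK : Fintype.card K = 4) [CharP K 2]
    (ends : E → Sym2 V) (hl : ∀ e, ¬ (ends e).IsDiag) (H : Finset E) (col : E → ZMod 3)
    (hdeg : ∀ v, ((H.filter fun e => v ∈ ends e).card = 2 ∧
        ∀ e ∈ H, ∀ f ∈ H, v ∈ ends e → v ∈ ends f → col e = col f) ∨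
      ((H.filter fun e => v ∈ ends e).card = 3 ∧
        ∀ e ∈ H, ∀ f ∈ H, v ∈ ends e → v ∈ ends f → col e = col f → e = f))
    (hcon : ∀ μ : ZMod 3, ∀ v w, (RG ends H).Reachable v w →
      (∃ e ∈ H, v ∈ ends e ∧ col e ≠ μ) → (∃ e ∈ H, w ∈ ends e ∧ col e ≠ μ) →
      (RG ends (H.filter fun e => col e ≠ μ)).Reachable v w)
    (hpar : ∀ C : (RG ends H).ConnectedComponent, Even (univ.filter fun d : {e // e ∉ H} × Bool =>
      (RG ends H).connectedComponentMk (vx ends d.1 d.2) = C).card) :
    ∃ S : {X : K // X ≠ 0} × Bool → Finset E,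
      (∀ i v, Even ((S i).filter fun e => v ∈ ends e).card) ∧
      ∀ e, (univ.filter fun i => e ∈ S i).card = 2 := by
  have hcard3 : Fintype.card {x : K // x ≠ 0} = 3 := by
    rw [Fintype.card_subtype_compl, hK]; simp
  have hκ0 : Fintype.card (ZMod 3) = Fintype.card {x : K // x ≠ 0} := by
    rw [hcard3]; rfl
  let κ : ZMod 3 ≃ {x : K // x ≠ 0} := Fintype.equivOfCardEq hκ0
  let cp : V → (RG ends H).ConnectedComponent := fun v => (RG ends H).connectedComponentMk v
  have hex : ∀ v, ∃ e, e ∈ H ∧ v ∈ ends e := by
    intro v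
    have hpos : 0 < (H.filter fun e => v ∈ ends e).card := by
      rcases hdeg v with h | h <;> omega
    obtain ⟨e, he⟩ := card_pos.1 hpos
    rw [mem_filter] at he
    exact ⟨e, he⟩
  choose ed hed1 hed2 using hex
  obtain ⟨s, f, hs, hf, hne, hpar'⟩ := exists_sol' hK (V := (RG ends H).ConnectedComponent)
    (E := {e // e ∉ H}) (fun d => cp (vx ends d.1 d.2))
    (fun d => (κ (col (ed (vx ends d.1 d.2))) : K)) hpar
  let D : K → Finset E := fun X => H.filter fun e => (κ (col e) : K) * s (cp (vx ends e false)) ≠ X
  have hcpe : ∀ e ∈ H, ∀ v ∈ ends e, cp (vx ends e false) = cp v := by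
    intro e he v hv
    exact SimpleGraph.ConnectedComponent.sound (RG_edge ends H e he (vx_mem ends e false) hv)
  -- missing colour
  have hmiss : ∀ (X : K), X ≠ 0 → ∀ v, ∃ m : ZMod 3, (κ m : K) * s (cp v) = X := by
    intro X hX v
    refine ⟨κ.symm ⟨X / s (cp v), div_ne_zero hX (hs _)⟩, ?_⟩
    rw [Equiv.apply_symm_apply]
    exact div_mul_cancel₀ X (hs _)
  have hDmem : ∀ (X : K) (v : V) (m : ZMod 3), (κ m : K) * s (cp v) = X → ∀ e ∈ H, v ∈ ends e →
      (e ∈ D X ↔ col e ≠ m) := by
    intro X v m hm e he hv
    simp only [D, mem_filter, he, true_and]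
    rw [hcpe e he v hv, ← hm, Ne, mul_left_inj' (hs _), Subtype.coe_inj, κ.apply_eq_iff_eq]
  -- L1
  have hDev : ∀ (X : K), X ≠ 0 → ∀ v, Even ((D X).filter fun e => v ∈ ends e).card := by
    intro X hX v
    obtain ⟨m, hm⟩ := hmiss X hX v
    have h1 : ((D X).filter fun e => v ∈ ends e) = (H.filter fun e => v ∈ ends e).filter fun e => col e ≠ m := by
      ext e
      simp only [mem_filter]
      constructor
      · rintro ⟨h2, h3⟩
        have he : e ∈ H := (mem_filter.1 h2).1
        exact ⟨⟨he, h3⟩, (hDmem X v m hm e he h3).1 h2⟩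
      · rintro ⟨⟨he, h3⟩, h4⟩
        exact ⟨(hDmem X v m hm e he h3).2 h4, h3⟩
    rw [h1]
    rcases hdeg v with ⟨h2, h3⟩ | ⟨h2, h3⟩
    · by_cases h4 : col (ed v) = m
      · have : ((H.filter fun e => v ∈ ends e).filter fun e => col e ≠ m) = ∅ := by
          rw [filter_eq_empty_iff]
          intro e he
          rw [mem_filter] at he
          rw [not_not, ← h4]
          exact h3 e he.1 _ (hed1 v) he.2 (hed2 v)
        rw [this]; simp
      · have : ((H.filter fun e => v ∈ ends e).filter fun e => col e ≠ m) = (H.filter fun e => v ∈ ends e) := by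
          rw [filter_eq_self]
          intro e he
          rw [mem_filter] at he
          rw [h3 e he.1 _ (hed1 v) he.2 (hed2 v)]
          exact h4
        rw [this, h2]; decide
    · have hinj : Set.InjOn col (H.filter fun e => v ∈ ends e : Finset E) := by
        intro e he f' hf' hef
        rw [mem_coe, mem_filter] at he hf'
        exact h3 e he.1 f' hf'.1 he.2 hf'.2 hef
      have himg : (H.filter fun e => v ∈ ends e).image col = univ := by
        apply eq_univ_of_card
        rw [card_image_of_injOn hinj, h2]
        rfl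
      have hm' : m ∈ (H.filter fun e => v ∈ ends e).image col := by rw [himg]; simp
      obtain ⟨e0, he0, he1⟩ := mem_image.1 hm'
      have : ((H.filter fun e => v ∈ ends e).filter fun e => col e ≠ m) = (H.filter fun e => v ∈ ends e).erase e0 := by
        ext e
        rw [mem_filter, mem_erase]
        constructor
        · rintro ⟨h5, h6⟩
          refine ⟨?_, h5⟩
          rintro rfl
          exact h6 he1
        · rintro ⟨h5, h6⟩
          refine ⟨h6, fun h7 => h5 (hinj h6 he0 (h7.trans he1.symm))⟩
      rw [this, card_erase_of_mem he0, h2]; decide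
  -- L2
  let t : K → V → ZMod 2 := fun X v =>
    ((univ.filter fun d : {e // e ∉ H} × Bool => vx ends d.1 d.2 = v ∧ f d.1 = X).card : ZMod 2)
  have hL2 : ∀ X v, t X v ≠ 0 → ∃ e ∈ D X, v ∈ ends e := by
    intro X v htv
    have hpos : (univ.filter fun d : {e // e ∉ H} × Bool => vx ends d.1 d.2 = v ∧ f d.1 = X).Nonempty := by
      rw [nonempty_iff_ne_empty]
      intro h
      apply htv
      simp only [t, h]
      simp
    obtain ⟨d, hd⟩ := hpos
    rw [mem_filter] at hd
    obtain ⟨-, hd1, hd2⟩ := hd
    refine ⟨ed v, ?_, hed2 v⟩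
    have h3 := hne d
    simp only [D, mem_filter]
    refine ⟨hed1 v, ?_⟩
    rw [hcpe _ (hed1 v) v (hed2 v)]
    rw [hd2, hd1] at h3
    exact h3.symm
  -- L3
  have hL3 : ∀ X, X ≠ 0 → ∀ v w, (RG ends H).Reachable v w → (∃ e ∈ D X, v ∈ ends e) →
      (∃ e ∈ D X, w ∈ ends e) → (RG ends (D X)).Reachable v w := by
    intro X hX v w hvw ⟨e, he, hve⟩ ⟨e', he', hwe⟩
    obtain ⟨m, hm⟩ := hmiss X hX v
    have heH : e ∈ H := (mem_filter.1 he).1
    have heH' : e' ∈ H := (mem_filter.1 he').1
    have hcw : cp v = cp w := SimpleGraph.ConnectedComponent.sound hvw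
    have h1 := hcon m v w hvw ⟨e, heH, hve, (hDmem X v m hm e heH hve).1 he⟩
      ⟨e', heH', hwe, (hDmem X w m (by rw [← hcw]; exact hm) e' heH' hwe).1 he'⟩
    rw [SimpleGraph.reachable_iff_reflTransGen] at h1
    have h2 : ∀ z, Relation.ReflTransGen (RG ends (H.filter fun e => col e ≠ m)).Adj v z →
        (RG ends (D X)).Reachable v z ∧ cp v = cp z := by
      intro z hz
      induction hz with
      | refl => exact ⟨SimpleGraph.Reachable.refl _, rfl⟩
      | @tail b c _ hab ih =>
        rw [RG_adj] at hab
        obtain ⟨hbc, f', hf', hf''⟩ := hab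
        rw [mem_filter] at hf'
        have hb : b ∈ ends f' := by rw [hf'']; exact Sym2.mem_mk_left _ _
        have hc : c ∈ ends f' := by rw [hf'']; exact Sym2.mem_mk_right _ _
        have hfD : f' ∈ D X := (hDmem X b m (by rw [← ih.2]; exact hm) f' hf'.1 hb).2 hf'.2
        refine ⟨ih.1.trans (RG_edge ends _ f' hfD hb hc), ih.2.trans ?_⟩
        exact SimpleGraph.ConnectedComponent.sound (RG_edge ends H f' hf'.1 hb hc)
    exact (h2 w h1).1
  -- L4
  have hL4 : ∀ X, X ≠ 0 → ∀ u : V, ∑ v ∈ univ.filter (fun v => (RG ends (D X)).Reachable u v), t X v = 0 := by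
    intro X hX u
    by_cases hex2 : ∃ v, (RG ends (D X)).Reachable u v ∧ t X v ≠ 0
    · obtain ⟨v0, hv1, hv2⟩ := hex2
      have hDH : D X ⊆ H := filter_subset _ _
      have h1 : ∑ v ∈ univ.filter (fun v => (RG ends (D X)).Reachable u v), t X v =
          ∑ v ∈ univ.filter (fun v => cp v = cp v0), t X v := by
        apply Finset.sum_subset
        · intro v hv
          rw [mem_filter] at hv ⊢
          refine ⟨mem_univ _, ?_⟩
          exact SimpleGraph.ConnectedComponent.sound (RG_mono ends _ _ hDH (hv.2.symm.trans hv1))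
        · intro v hv hv'
          by_contra htv
          apply hv'
          rw [mem_filter] at hv ⊢
          refine ⟨mem_univ _, hv1.trans ?_⟩
          exact hL3 X hX v0 v (SimpleGraph.ConnectedComponent.exact hv.2.symm) (hL2 X v0 hv2) (hL2 X v htv)
      rw [h1]
      have h2 : ∑ v ∈ univ.filter (fun v => cp v = cp v0), t X v =
          ((univ.filter fun d : {e // e ∉ H} × Bool => cp (vx ends d.1 d.2) = cp v0 ∧ f d.1 = X).card : ZMod 2) := by
        rw [Finset.card_eq_sum_card_fiberwise (f := fun d : {e // e ∉ H} × Bool => vx ends d.1 d.2)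
          (t := univ.filter fun v => cp v = cp v0)]
        · push_cast
          apply Finset.sum_congr rfl
          intro v hv
          rw [mem_filter] at hv
          simp only [t]
          congr 2
          ext d
          simp only [mem_filter, mem_univ, true_and]
          constructor
          · rintro ⟨h3, h4⟩
            exact ⟨⟨by rw [h3]; exact hv.2, h4⟩, h3⟩
          · rintro ⟨⟨-, h4⟩, h3⟩
            exact ⟨h3, h4⟩
        · intro d hd
          simp only [coe_filter, mem_univ, true_and, Set.mem_setOf_eq] at hd ⊢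
          exact hd.1
      rw [h2, ZMod.natCast_eq_zero_iff_even]
      exact hpar' X hX (cp v0)
    · push Not at hex2
      apply Finset.sum_eq_zero
      intro v hv
      rw [mem_filter] at hv
      exact hex2 v hv.2
  choose J hJ1 hJ2 using fun X : {X : K // X ≠ 0} => tjoin' ends hl (D X) (t X) (hL4 X X.2)
  let MX : K → Finset E := fun X =>
    (univ.filter fun e : {e // e ∉ H} => f e = X).map ⟨Subtype.val, Subtype.val_injective⟩
  have hMmem : ∀ X e, e ∈ MX X ↔ ∃ h : e ∉ H, f ⟨e, h⟩ = X := by
    intro X e
    simp only [MX, mem_map, mem_filter, mem_univ, true_and, Function.Embedding.coeFn_mk]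
    constructor
    · rintro ⟨a, h1, rfl⟩
      exact ⟨a.2, h1⟩
    · rintro ⟨h, h1⟩
      exact ⟨⟨e, h⟩, h1, rfl⟩
  have hMt : ∀ X v, (((MX X).filter fun e => v ∈ ends e).card : ZMod 2) = t X v := by
    intro X v
    simp only [MX, t]
    rw [filter_map, card_map, filter_filter]
    rw [Finset.card_filter, Finset.card_filter, Fintype.sum_prod_type]
    push_cast
    apply Finset.sum_congr rfl
    intro e _
    have h1 := card_darts ends hl e v
    rw [Finset.card_filter] at h1
    simp only [Function.comp, Function.Embedding.coeFn_mk]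
    by_cases hfe : f e = X
    · simp only [hfe, true_and, and_true]
      have h2 := congrArg (fun n : ℕ => (n : ZMod 2)) h1
      simp only [Nat.cast_sum, Nat.cast_ite, Nat.cast_one, Nat.cast_zero] at h2
      rw [h2]
    · simp [hfe]
  refine ⟨fun i => MX i.1 ∪ (if i.2 then J i.1 else D i.1 \ J i.1), ?_, ?_⟩
  · rintro ⟨X, b⟩ v
    have hdisj : ∀ T : Finset E, T ⊆ H → Disjoint ((MX X).filter fun e => v ∈ ends e) (T.filter fun e => v ∈ ends e) := by
      intro T hT
      rw [Finset.disjoint_left]
      intro e he he'
      rw [mem_filter] at he he'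
      obtain ⟨h, -⟩ := (hMmem X e).1 he.1
      exact h (hT he'.1)
    have hDH : D X ⊆ H := filter_subset _ _
    rw [← ZMod.natCast_eq_zero_iff_even]
    cases b
    · simp only [Bool.false_eq_true, if_false]
      rw [filter_union, card_union_of_disjoint (hdisj _ (sdiff_subset.trans hDH))]
      have h1 : ((D X \ J X).filter fun e => v ∈ ends e).card + ((J X).filter fun e => v ∈ ends e).card =
          ((D X).filter fun e => v ∈ ends e).card := by
        rw [← card_union_of_disjoint, ← filter_union, sdiff_union_of_subset (hJ1 X)]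
        rw [Finset.disjoint_left]
        intro e he he'
        rw [mem_filter] at he he'
        exact (mem_sdiff.1 he.1).2 he'.1
      have h2 := (ZMod.natCast_eq_zero_iff_even).2 (hDev X X.2 v)
      rw [← h1] at h2
      push_cast at h2 ⊢
      rw [hJ2 X v] at h2
      rw [hMt X v, add_comm]
      exact h2
    · simp only [if_true]
      rw [filter_union, card_union_of_disjoint (hdisj _ ((hJ1 X).trans hDH))]
      push_cast
      rw [hMt X v, hJ2 X v]
      exact CharTwo.add_self_eq_zero _
  · intro e
    have hJD : ∀ X, J X ⊆ D X := hJ1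
    have hDH : ∀ X, D X ⊆ H := fun X => filter_subset _ _
    by_cases heH : e ∈ H
    · have h1 : ∀ i : {X : K // X ≠ 0} × Bool, e ∈ MX i.1 ∪ (if i.2 then J i.1 else D i.1 \ J i.1) ↔
          (e ∈ D i.1 ∧ ((e ∈ J i.1) ↔ i.2 = true)) := by
        rintro ⟨X, b⟩
        rw [mem_union]
        have h2 : ¬ e ∈ MX X := fun h => by
          obtain ⟨h3, -⟩ := (hMmem X e).1 h
          exact h3 heH
        cases b
        · simp [h2]
        · simp only [h2, if_true, false_or, iff_true]
          exact ⟨fun h => ⟨hJD X h, h⟩, fun h => h.2⟩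
      have h2 : (univ.filter fun i : {X : K // X ≠ 0} × Bool =>
          e ∈ MX i.1 ∪ (if i.2 then J i.1 else D i.1 \ J i.1)).card =
          (univ.filter fun X : {X : K // X ≠ 0} => e ∈ D X).card := by
        rw [Finset.filter_congr fun i _ => h1 i]
        apply Finset.card_bij (fun i _ => i.1)
        · intro i hi
          rw [mem_filter] at hi ⊢
          exact ⟨mem_univ _, hi.2.1⟩
        · rintro ⟨X, b⟩ hi ⟨X', b'⟩ hi' hXX
          rw [mem_filter] at hi hi'
          simp only at hXX hi hi'
          subst hXX
          have : b = b' := by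
            have h3 := hi.2.2.symm.trans hi'.2.2
            cases b <;> cases b' <;> simp_all
          rw [this]
        · intro X hX
          rw [mem_filter] at hX
          refine ⟨(X, decide (e ∈ J X)), ?_, rfl⟩
          rw [mem_filter]
          exact ⟨mem_univ _, hX.2, by simp⟩
      rw [h2]
      have ha : (κ (col e) : K) * s (cp (vx ends e false)) ≠ 0 := mul_ne_zero (κ (col e)).2 (hs _)
      have h3 : (univ.filter fun X : {X : K // X ≠ 0} => e ∈ D X) =
          univ.erase ⟨(κ (col e) : K) * s (cp (vx ends e false)), ha⟩ := by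
        ext X
        simp only [D, mem_filter, mem_univ, true_and, mem_erase, and_true, heH]
        rw [Ne, Ne, Subtype.ext_iff, eq_comm]
      rw [h3, card_erase_of_mem (mem_univ _), card_univ, hcard3]
    · have h1 : ∀ i : {X : K // X ≠ 0} × Bool, e ∈ MX i.1 ∪ (if i.2 then J i.1 else D i.1 \ J i.1) ↔
          (⟨f ⟨e, heH⟩, hf _⟩ : {X : K // X ≠ 0}) = i.1 := by
        rintro ⟨X, b⟩
        rw [mem_union, hMmem]
        constructor
        · rintro (⟨h2, h3⟩ | h2)
          · exact Subtype.ext h3
          · exfalso
            apply heH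
            cases b
            · simp only [Bool.false_eq_true, if_false] at h2
              exact hDH X (mem_sdiff.1 h2).1
            · simp only [if_true] at h2
              exact hDH X (hJD X h2)
        · intro h
          exact Or.inl ⟨heH, congrArg Subtype.val h⟩
      rw [Finset.filter_congr fun i _ => h1 i]
      have h2 : (univ.filter fun i : {X : K // X ≠ 0} × Bool =>
          (⟨f ⟨e, heH⟩, hf _⟩ : {X : K // X ≠ 0}) = i.1) =
          (univ : Finset Bool).image fun b => ((⟨f ⟨e, heH⟩, hf _⟩ : {X : K // X ≠ 0}), b) := by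
        ext ⟨X, b⟩
        simp only [mem_filter, mem_univ, true_and, mem_image, Prod.mk.injEq, exists_eq_right]
      rw [h2, card_image_of_injective]
      · simp
      · intro b b' h
        exact (Prod.mk.injEq _ _ _ _ ▸ h).2

end graphB

end Pool.Agent.Helper998.Kotz
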